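import Pool.Agent.Q45.HI.Hit

/-!
# Hilbert irreducibility for almost all integral points of a family with several parameters
-/

set_option autoImplicit false
set_option linter.all false

open Filter

namespace Pool.Agent.Q45.HI

open Pool.Agent.W275.UB Pool.Agent.Y706
open MvPolynomial IntermediateField

/-- the specialization of the parameters at an integral point -/
noncomputable def spc (k : Type) [Field k] {ι : Type} (v : ι → ℤ) : MvPolynomial ι k →+* k :=
  eval fun i => ((v i : ℤ) : k)

section up

variable {ι : Type} [Fintype ι] {U : Ultrafilter (ι → ℤ)} {k : Type} [Field k]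

/-- the polynomials in the parameters in the ultrapower -/
noncomputable def thU (U : Ultrafilter (ι → ℤ)) (k : Type) [Field k] : MvPolynomial ι k →+* UP U k :=
  (up U k).comp (RingHom.pi fun v => spc k v)

theorem thU_apply (P : MvPolynomial ι k) : thU U k P = up U k fun v => spc k v P := rfl

theorem thU_eq (P : MvPolynomial ι k) : thU U k P = aeval (Wk U k) P := by
  induction P using MvPolynomial.induction_on with
  | C a =>
    rw [aeval_C, thU_apply, algebraMap_up]
    congr 1
    funext v
    exact eval_C _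
  | add p q hp hq => rw [map_add, map_add, hp, hq]
  | mul_X p i hp =>
    rw [map_mul, map_mul, hp, aeval_X]
    congr 1
    rw [thU_apply, Wk]
    congr 1
    funext v
    exact eval_X _

/-- A polynomial over the ultrapower from polynomials of bounded degree. -/
noncomputable def upP (U : Ultrafilter (ι → ℤ)) (n : ℕ) (a : (ι → ℤ) → Polynomial k) :
    Polynomial (UP U k) :=
  ∑ i ∈ Finset.range (n + 1), Polynomial.C (up U k fun v => (a v).coeff i) * Polynomial.X ^ i

theorem upP_coeff {n : ℕ} {a : (ι → ℤ) → Polynomial k} (h : ∀ v, (a v).natDegree ≤ n) (j : ℕ) :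
    (upP U n a).coeff j = up U k fun v => (a v).coeff j := by
  classical
  rw [upP, Polynomial.finsetSum_coeff]
  simp only [Polynomial.coeff_C_mul, Polynomial.coeff_X_pow, mul_ite, mul_one, mul_zero]
  rw [Finset.sum_ite_eq]
  split_ifs with hj
  · rfl
  · rw [Finset.mem_range, not_lt] at hj
    symm
    rw [up_eq_zero]
    filter_upwards with v
    exact Polynomial.coeff_eq_zero_of_natDegree_lt (lt_of_le_of_lt (h v) (by omega))

theorem upP_mul {n : ℕ} {a b : (ι → ℤ) → Polynomial k} (ha : ∀ v, (a v).natDegree ≤ n)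
    (hb : ∀ v, (b v).natDegree ≤ n) {F : Polynomial (MvPolynomial ι k)}
    (h : ∀ᶠ v in (U : Filter (ι → ℤ)), F.map (spc k v) = a v * b v) :
    F.map (thU U k) = upP U n a * upP U n b := by
  ext j
  rw [Polynomial.coeff_map, Polynomial.coeff_mul, thU_apply]
  have h1 : ∀ p ∈ Finset.HasAntidiagonal.antidiagonal j, (upP U n a).coeff p.1 * (upP U n b).coeff p.2 =
      up U k fun v => (a v).coeff p.1 * (b v).coeff p.2 := by
    intro p _
    rw [upP_coeff ha, upP_coeff hb, ← map_mul]
    rfl
  rw [Finset.sum_congr rfl h1, ← map_sum, up_eq]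
  filter_upwards [h] with v hv
  rw [Finset.sum_apply, ← Polynomial.coeff_mul, ← hv, Polynomial.coeff_map]

end up

/-- **Hilbert's irreducibility theorem for almost all integral points.** -/
theorem ud_irr {k : Type} [Field k] [NumberField k] {ι : Type} [Fintype ι]
    {F : Polynomial (MvPolynomial ι k)} (hF : F.Monic) (hirr : Irreducible F) {ε : ℝ} (hε : 0 < ε) :
    UD ε {v : ι → ℤ | ¬ Irreducible (F.map (spc k v))} := by
  classical
  by_contra hcon
  obtain ⟨U, hU, hS⟩ := Pool.Agent.W125.UB.Exu.main ι
    {v : ι → ℤ | ¬ Irreducible (F.map (spc k v))} fun h => hcon (h ε hε)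
  have hd := Pool.Agent.W883.UB.Dens.main
  set n := F.natDegree with hn
  have hnpos : 0 < n := by
    rw [Nat.pos_iff_ne_zero]
    intro h0
    have h1 : F = 1 := hF.natDegree_eq_zero.1 h0
    rw [h1] at hirr
    exact hirr.not_isUnit isUnit_one
  -- the factors
  have h1 : ∀ v : ι → ℤ, ∃ a b : Polynomial k, a.natDegree ≤ n ∧ b.natDegree ≤ n ∧ a.Monic ∧
      (¬ Irreducible (F.map (spc k v)) → F.map (spc k v) = a * b ∧ 0 < a.natDegree ∧
        a.natDegree < n) := by
    intro v
    by_cases hv : Irreducible (F.map (spc k v))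
    · exact ⟨1, 1, by simp, by simp, Polynomial.monic_one, fun h => absurd hv h⟩
    · have hm : (F.map (spc k v)).Monic := hF.map _
      have hdg : (F.map (spc k v)).natDegree = n := hF.natDegree_map _
      have hne1 : F.map (spc k v) ≠ 1 := by
        intro h0
        rw [h0, Polynomial.natDegree_one] at hdg
        omega
      rw [hm.irreducible_iff_natDegree'] at hv
      push Not at hv
      obtain ⟨a, b, ha, hb, hab, hbd⟩ := hv hne1
      rw [Finset.mem_Ioc] at hbd
      have hs : a.natDegree + b.natDegree = n := by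
        rw [← ha.natDegree_mul hb, hab, hdg]
      rw [hdg] at hbd
      exact ⟨a, b, by omega, by omega, ha, fun _ => ⟨hab.symm, by omega, by omega⟩⟩
  choose a b ha hb ham hab using h1
  have hS' : ∀ᶠ v in (U : Filter (ι → ℤ)), F.map (spc k v) = a v * b v ∧ 0 < (a v).natDegree ∧
      (a v).natDegree < n := by
    filter_upwards [hS] with v hv
    exact hab v hv
  have hmul := upP_mul (U := U) ha hb (hS'.mono fun v hv => hv.1)
  -- the degree
  obtain ⟨d, hd1⟩ : ∃ d ∈ Finset.range (n + 1), ∀ᶠ v in (U : Filter (ι → ℤ)), (a v).natDegree = d := by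
    have h3 : ∀ᶠ v in (U : Filter (ι → ℤ)), ∃ d ∈ Finset.range (n + 1), (a v).natDegree = d := by
      filter_upwards with v
      exact ⟨_, Finset.mem_range.2 (Nat.lt_succ_of_le (ha v)), rfl⟩
    exact (Ultrafilter.eventually_exists_mem_iff (Finset.finite_toSet _)).1 h3
  obtain ⟨-, hdv⟩ := hd1
  obtain ⟨hd0, hdn⟩ : 0 < d ∧ d < n := by
    obtain ⟨v, hv1, hv2⟩ := (hdv.and hS').exists
    omega
  set A := upP U n a with hA
  have hAd : A.coeff d = 1 := by
    rw [hA, upP_coeff ha, ← map_one (up U k), up_eq]
    filter_upwards [hdv] with v hv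
    have h3 := (ham v).coeff_natDegree
    rwa [hv] at h3
  have hAj : ∀ j, d < j → A.coeff j = 0 := by
    intro j hj
    rw [hA, upP_coeff ha, up_eq_zero]
    filter_upwards [hdv] with v hv
    exact Polynomial.coeff_eq_zero_of_natDegree_lt (by omega)
  have hAn : A.natDegree = d := by
    apply Polynomial.natDegree_eq_of_le_of_coeff_ne_zero
    · rw [Polynomial.natDegree_le_iff_coeff_eq_zero]
      exact hAj
    · rw [hAd]
      exact one_ne_zero
  have hAm : A.Monic := by
    rw [Polynomial.Monic, Polynomial.leadingCoeff, hAn, hAd]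
  have hdvd : A ∣ F.map (thU U k) := ⟨_, hmul⟩
  -- the coefficients are algebraic
  let L := adjoin k (Set.range (Wk U k))
  have hWA : L ≤ algF hd hU k := by
    rw [adjoin_le_iff]
    rintro _ ⟨i, rfl⟩
    exact Wk_alg hd hU i
  have hmemL : ∀ P : MvPolynomial ι k, thU U k P ∈ L := by
    intro P
    rw [thU_eq]
    exact algebra_adjoin_le_adjoin k _ (by
      rw [Algebra.adjoin_range_eq_range_aeval]
      exact ⟨P, rfl⟩)
  let θ : MvPolynomial ι k →+* L := (thU U k).codRestrict L.toSubring hmemL
  have hθ : (algebraMap L (UP U k)).comp θ = thU U k := rfl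
  have hcoef : ∀ j, A.coeff j ∈ L := by
    intro j
    apply rac_w hd urel hU
    apply algF_trans hd hU L hWA
    letI : Algebra (MvPolynomial ι k) (UP U k) := (thU U k).toAlgebra
    have h3 := integralClosure.mem_lifts_of_monic_of_dvd_map (R := MvPolynomial ι k) (UP U k) hF hAm
      hdvd
    rw [Polynomial.lifts_iff_coeff_lifts] at h3
    obtain ⟨⟨x, hx⟩, hxj⟩ := h3 j
    have hx' : x = A.coeff j := hxj
    rw [← hx']
    obtain ⟨p, hp, hpx⟩ := hx
    refine ⟨p.map θ, (hp.map θ).ne_zero, ?_⟩
    rw [Polynomial.aeval_def, Polynomial.eval₂_map, hθ]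
    exact hpx
  obtain ⟨A', hA'⟩ : ∃ A' : Polynomial L, A'.map (algebraMap L (UP U k)) = A := by
    have h3 : A ∈ Polynomial.lifts (algebraMap L (UP U k)) := by
      rw [Polynomial.lifts_iff_coeff_lifts]
      exact fun j => ⟨⟨_, hcoef j⟩, rfl⟩
    exact (Polynomial.mem_lifts _).1 h3
  have hinjL : Function.Injective (algebraMap L (UP U k)) := (algebraMap L (UP U k)).injective
  have hA'm : A'.Monic := by
    have h3 : (A'.map (algebraMap L (UP U k))).Monic := hA' ▸ hAm
    exact Polynomial.monic_of_injective hinjL h3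
  have hA'n : A'.natDegree = d := by
    rw [← hAn, ← hA', Polynomial.natDegree_map_eq_of_injective hinjL]
  have hA'd : A' ∣ F.map θ := by
    rw [← Polynomial.map_dvd_map (algebraMap L (UP U k)) hinjL hA'm, hA', Polynomial.map_map, hθ]
    exact hdvd
  -- the irreducibility over the rational functions
  have hind : AlgebraicIndependent k (Wk U k) := indep_W hd hU
  let e := hind.aevalEquivField
  have he : (e : FractionRing (MvPolynomial ι k) →+* L).comp
      (algebraMap (MvPolynomial ι k) (FractionRing (MvPolynomial ι k))) = θ := by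
    refine RingHom.ext fun P => Subtype.ext ?_
    have h3 := hind.aevalEquivField_algebraMap_apply_coe P
    rw [← thU_eq] at h3
    exact h3
  have hirr1 : Irreducible (F.map (algebraMap (MvPolynomial ι k) (FractionRing (MvPolynomial ι k)))) :=
    (hF.irreducible_iff_irreducible_map_fraction_map).1 hirr
  have hirr2 : Irreducible (F.map θ) := by
    rw [← he, ← Polynomial.map_map]
    have h3 := (MulEquiv.irreducible_iff (Polynomial.mapEquiv
      (e : FractionRing (MvPolynomial ι k) ≃+* L))).2 hirr1
    exact h3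
  obtain ⟨B', hB'⟩ := hA'd
  rcases hirr2.isUnit_or_isUnit hB' with h3 | h3
  · have h4 := Polynomial.natDegree_eq_zero_of_isUnit h3
    omega
  · have h4 := Polynomial.natDegree_eq_zero_of_isUnit h3
    have h5 : (F.map θ).natDegree = n := hF.natDegree_map θ
    have hB0 : B' ≠ 0 := h3.ne_zero
    rw [hB', hA'm.natDegree_mul' hB0, h4, hA'n] at h5
    omega

end Pool.Agent.Q45.HI
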