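import Pool.Agent.Q45.HI.Gen
import Pool.Agent.Q45.TT.Dens

/-!
# Polynomials with a completely decomposed value, for almost all integral vectors
-/

set_option autoImplicit false
set_option linter.all false

open Polynomial Filter Topology
open scoped Classical

namespace Pool.Agent.Q45.HI

open Pool.Agent.W275.UB
open Pool.Agent.Y160.T3 (mF mF_monic mF_natDegree mF_eq bF)
open Pool.Agent.Q45.TT (mF_map)

section ud

variable {ι : Type} [Fintype ι]

theorem ud_union {S T : Set (ι → ℤ)} (hS : ∀ ε : ℝ, 0 < ε → UD ε S)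
    (hT : ∀ ε : ℝ, 0 < ε → UD ε T) (ε : ℝ) (hε : 0 < ε) : UD ε (S ∪ T) := by
  obtain ⟨H1, h1⟩ := hS (ε / 2) (by positivity)
  obtain ⟨H2, h2⟩ := hT (ε / 2) (by positivity)
  refine ⟨max H1 H2, fun H hH => ?_⟩
  have a1 := h1 H ((le_max_left _ _).trans hH)
  have a2 := h2 H ((le_max_right _ _).trans hH)
  have e1 : ({v | v ∈ S ∪ T ∧ ∀ i, |v i| ≤ (H : ℤ)} : Set (ι → ℤ)) =
      {v | v ∈ S ∧ ∀ i, |v i| ≤ (H : ℤ)} ∪ {v | v ∈ T ∧ ∀ i, |v i| ≤ (H : ℤ)} := by
    ext v
    simp only [Set.mem_setOf_eq, Set.mem_union]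
    tauto
  have h3 := Set.ncard_union_le ({v | v ∈ S ∧ ∀ i, |v i| ≤ (H : ℤ)} : Set (ι → ℤ))
    {v | v ∈ T ∧ ∀ i, |v i| ≤ (H : ℤ)}
  rw [e1]
  have h4 : ((({v | v ∈ S ∧ ∀ i, |v i| ≤ (H : ℤ)} : Set (ι → ℤ)) ∪
      {v | v ∈ T ∧ ∀ i, |v i| ≤ (H : ℤ)}).ncard : ℝ) ≤
      (({v | v ∈ S ∧ ∀ i, |v i| ≤ (H : ℤ)} : Set (ι → ℤ)).ncard : ℝ) +
      (({v | v ∈ T ∧ ∀ i, |v i| ≤ (H : ℤ)} : Set (ι → ℤ)).ncard : ℝ) := by exact_mod_cast h3
  linarith

theorem ud_empty (ε : ℝ) (hε : 0 < ε) : UD ε (∅ : Set (ι → ℤ)) := by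
  refine ⟨0, fun H _ => ?_⟩
  have h1 : ({v | v ∈ (∅ : Set (ι → ℤ)) ∧ ∀ i, |v i| ≤ (H : ℤ)} : Set (ι → ℤ)) = ∅ := by
    ext v
    simp
  rw [h1, Set.ncard_empty, Nat.cast_zero]
  positivity

theorem ud_iUnion {τ : Type} [Finite τ] {S : τ → Set (ι → ℤ)}
    (h : ∀ t, ∀ ε : ℝ, 0 < ε → UD ε (S t)) (ε : ℝ) (hε : 0 < ε) : UD ε (⋃ t, S t) := by
  have key : ∀ s : Finset τ, ∀ ε : ℝ, 0 < ε → UD ε (⋃ t ∈ s, S t) := by
    intro s
    induction s using Finset.induction_on with
    | empty =>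
      intro ε hε
      simp only [Finset.notMem_empty, Set.iUnion_of_empty, Set.iUnion_empty]
      exact ud_empty ε hε
    | insert a s ha ih =>
      intro ε hε
      rw [Finset.set_biUnion_insert]
      exact ud_union (h a) ih ε hε
  haveI := Fintype.ofFinite τ
  have h1 := key Finset.univ ε hε
  simpa using h1

/-- sets of density zero -/
theorem tendsto_of_ud {S : Set (ι → ℤ)} (h : ∀ ε : ℝ, 0 < ε → UD ε S) :
    Tendsto (fun H : ℕ => (({v : ι → ℤ | (∀ i, |v i| ≤ (H : ℤ)) ∧ v ∈ S}.ncard : ℕ) : ℝ) /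
      (2 * (H : ℝ) + 1) ^ Fintype.card ι) atTop (𝓝 0) := by
  rw [Metric.tendsto_atTop]
  intro ε hε
  obtain ⟨H₀, hH⟩ := h (ε / 2) (by positivity)
  refine ⟨H₀, fun H hH0 => ?_⟩
  have h1 := hH H hH0
  have h2 : ({v : ι → ℤ | (∀ i, |v i| ≤ (H : ℤ)) ∧ v ∈ S}) =
      {v | v ∈ S ∧ ∀ i, |v i| ≤ (H : ℤ)} := by
    ext v
    exact and_comm
  have h3 : (0 : ℝ) < (2 * (H : ℝ) + 1) ^ Fintype.card ι := by positivity
  rw [Real.dist_eq, sub_zero, abs_of_nonneg (by positivity), h2, div_lt_iff₀ h3]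
  nlinarith

end ud

section fac

variable (k : Type) [Field k] {r : ℕ} (n : Fin (r + 1) → ℕ)

/-- The names of the parameters: `none` for `c`, the others for the coefficients of the factors. -/
abbrev Par : Type := Option (Σ i : Fin (r + 1), Fin (n i))

/-- The factors over the ring of the parameters. -/
noncomputable def Qg (i : Fin (r + 1)) : (MvPolynomial (Par n) k)[X] :=
  mF fun j : Fin (n i) => MvPolynomial.X (some ⟨i, j⟩)

/-- The factors. -/
noncomputable def Qv (v : Par n → ℤ) (i : Fin (r + 1)) : k[X] :=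
  mF fun j : Fin (n i) => ((v (some ⟨i, j⟩) : ℤ) : k)

/-- The polynomial `g`. -/
noncomputable def gv (v : Par n → ℤ) : k[X] := C ((v none : ℤ) : k) + ∏ i, Qv k n v i

variable {k n}

theorem Qg_map (v : Par n → ℤ) (i : Fin (r + 1)) : (Qg k n i).map (spc k v) = Qv k n v i := by
  rw [Qg, mF_map, Qv]
  congr 1
  funext j
  rw [spc, MvPolynomial.eval_X]

theorem free_none (i : Fin (r + 1)) : Free none (Qg k n i) := by
  rw [Qg, mF_eq, bF]
  refine (free_X.pow _).add (Free.sum fun j _ => ?_)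
  exact (free_s (by simp)).mul (free_X.pow _)

theorem prod_monic (v : Par n → ℤ) : (∏ i, Qv k n v i).Monic :=
  monic_prod_of_monic _ _ fun i _ => mF_monic _

theorem prod_natDegree (v : Par n → ℤ) : (∏ i, Qv k n v i).natDegree = ∑ i, n i := by
  rw [natDegree_prod_of_monic _ (Qv k n v) fun i _ => mF_monic _]
  exact Finset.sum_congr rfl fun i _ => mF_natDegree _

theorem gv_monic (hn : 0 < ∑ i, n i) (v : Par n → ℤ) :
    (gv k n v).Monic ∧ (gv k n v).natDegree = ∑ i, n i := by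
  have h1 := prod_monic (k := k) v
  have h2 := prod_natDegree (k := k) v
  constructor
  · rw [gv]
    refine h1.add_of_right (lt_of_le_of_lt degree_C_le ?_)
    rw [degree_eq_natDegree h1.ne_zero, h2]
    exact_mod_cast hn
  · rw [gv, natDegree_C_add, h2]

/-- **The conditions hold for almost all integral vectors.** -/
theorem ud_fac [NumberField k] (hn : ∀ i, 0 < n i) (B : Finset k[X]) (ε : ℝ) (hε : 0 < ε) :
    UD ε {v : Par n → ℤ | ¬ ((∀ i, Irreducible (Qv k n v i)) ∧ Function.Injective (Qv k n v) ∧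
      ∀ b ∈ B, Irreducible b → Irreducible (b.comp (-(gv k n v))))} := by
  have hsum : 0 < ∑ i, n i := Finset.sum_pos (fun i _ => hn i) ⟨0, Finset.mem_univ _⟩
  -- the factors are irreducible
  have h1 : ∀ i : Fin (r + 1), ∀ ε : ℝ, 0 < ε →
      UD ε {v : Par n → ℤ | ¬ Irreducible (Qv k n v i)} := by
    intro i ε hε
    let q : Par n := some ⟨i, ⟨0, hn i⟩⟩
    let h : (MvPolynomial (Par n) k)[X] := X ^ n i +
      ∑ j ∈ Finset.univ.erase (⟨0, hn i⟩ : Fin (n i)), C (MvPolynomial.X (some ⟨i, j⟩)) * X ^ (j : ℕ)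
    have hh : Free q h := by
      refine (free_X.pow _).add (Free.sum fun j hj => ?_)
      refine (free_s ?_).mul (free_X.pow _)
      intro h0
      have h3 := Option.some_injective _ h0
      have h4 := eq_of_heq (Sigma.mk.inj h3).2
      exact (Finset.ne_of_mem_erase hj) h4
    have hG : Qg k n i = C (MvPolynomial.X q) + h := by
      rw [Qg, mF_eq, bF, ← Finset.add_sum_erase _ _ (Finset.mem_univ (⟨0, hn i⟩ : Fin (n i)))]
      show X ^ n i + (C (MvPolynomial.X q) * X ^ 0 + _) = C (MvPolynomial.X q) + (X ^ n i + _)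
      rw [pow_zero, mul_one]
      ring
    have h3 := ud_comp (k := k) hh (b := (X : k[X])) irreducible_X hG (mF_monic _)
      (by rw [Qg, mF_natDegree]; exact hn i) hε
    refine Pool.Agent.Y706.UD_mono ?_ h3
    intro v hv h4
    apply hv
    rw [X_comp, Qg_map] at h4
    exact (Associated.refl (Qv k n v i)).neg_left.irreducible_iff.1 h4
  -- the factors are different
  have h2 : ∀ ij : {ij : Fin (r + 1) × Fin (r + 1) // ij.1 ≠ ij.2}, ∀ ε : ℝ, 0 < ε →
      UD ε {v : Par n → ℤ | Qv k n v ij.1.1 = Qv k n v ij.1.2} := by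
    rintro ⟨⟨i, j⟩, hij⟩ ε hε
    let q : Par n := some ⟨i, ⟨0, hn i⟩⟩
    let q' : Par n := some ⟨j, ⟨0, hn j⟩⟩
    have hqq : q ≠ q' := by
      intro h0
      have h3 := Option.some_injective _ h0
      exact hij (Sigma.mk.inj h3).1
    have hc : (MvPolynomial.X q - MvPolynomial.X q' : MvPolynomial (Par n) ℤ) ≠ 0 := by
      rw [sub_ne_zero]
      exact fun h0 => hqq (MvPolynomial.X_injective h0)
    refine Pool.Agent.Y706.UD_mono ?_ (ud_zero hc hε)
    intro v hv
    have hv' : Qv k n v i = Qv k n v j := hv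
    have h3 : ∀ (i : Fin (r + 1)), (Qv k n v i).coeff 0 = ((v (some ⟨i, ⟨0, hn i⟩⟩) : ℤ) : k) := by
      intro i
      have h4 := Pool.Agent.Y160.T3.mF_eq (fun j : Fin (n i) => ((v (some ⟨i, j⟩) : ℤ) : k))
      rw [Qv, h4, bF, coeff_add, coeff_X_pow, if_neg (by have := hn i; omega), zero_add,
        finsetSum_coeff, Finset.sum_eq_single (⟨0, hn i⟩ : Fin (n i))]
      · simp
      · intro b _ hb
        rw [coeff_C_mul, coeff_X_pow, if_neg, mul_zero]
        intro h5
        exact hb (Fin.ext h5.symm)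
      · intro h5
        exact absurd (Finset.mem_univ _) h5
    have h4 := congrArg (fun p => coeff p 0) hv'
    simp only [h3] at h4
    show MvPolynomial.eval v (MvPolynomial.X q - MvPolynomial.X q') = 0
    rw [map_sub, MvPolynomial.eval_X, MvPolynomial.eval_X, sub_eq_zero]
    exact_mod_cast h4
  -- the branch points are inert
  have h3 : ∀ b : {b // b ∈ B ∧ Irreducible b}, ∀ ε : ℝ, 0 < ε →
      UD ε {v : Par n → ℤ | ¬ Irreducible (b.1.comp (-(gv k n v)))} := by
    rintro ⟨b, hbB, hb⟩ ε hε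
    have hm : (C (MvPolynomial.X none) + ∏ i, Qg k n i : (MvPolynomial (Par n) k)[X]).Monic ∧
        (C (MvPolynomial.X none) + ∏ i, Qg k n i : (MvPolynomial (Par n) k)[X]).natDegree =
          ∑ i, n i := by
      have e1 : (∏ i, Qg k n i).Monic := monic_prod_of_monic _ _ fun i _ => mF_monic _
      have e2 : (∏ i, Qg k n i).natDegree = ∑ i, n i := by
        rw [natDegree_prod_of_monic _ (Qg k n) fun i _ => mF_monic _]
        exact Finset.sum_congr rfl fun i _ => mF_natDegree _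
      constructor
      · refine e1.add_of_right (lt_of_le_of_lt degree_C_le ?_)
        rw [degree_eq_natDegree e1.ne_zero, e2]
        exact_mod_cast hsum
      · rw [natDegree_C_add, e2]
    have h4 := ud_comp (k := k) (q := none) (h := ∏ i, Qg k n i) (Free.prod fun i _ => free_none i) hb
      rfl hm.1 (by rw [hm.2]; exact hsum) hε
    refine Pool.Agent.Y706.UD_mono ?_ h4
    intro v hv h5
    apply hv
    have h6 : (C (MvPolynomial.X none) + ∏ i, Qg k n i : (MvPolynomial (Par n) k)[X]).map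
        (spc k v) = gv k n v := by
      rw [Polynomial.map_add, map_C, Polynomial.map_prod, gv]
      congr 1
      · rw [spc, MvPolynomial.eval_X]
      · exact Finset.prod_congr rfl fun i _ => Qg_map v i
    rwa [h6] at h5
  haveI : Finite {b // b ∈ B ∧ Irreducible b} :=
    Finite.of_injective (fun b => (⟨b.1, b.2.1⟩ : {b // b ∈ B}))
      fun a b h => Subtype.ext (congrArg (fun x : {b // b ∈ B} => x.1) h)
  have h4 := ud_union (ud_union (ud_iUnion h1) (ud_iUnion h2)) (ud_iUnion h3) ε hε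
  refine Pool.Agent.Y706.UD_mono ?_ h4
  intro v hv
  by_contra hcon
  simp only [Set.mem_union, Set.mem_iUnion, Set.mem_setOf_eq, not_or, not_exists, not_not] at hcon
  obtain ⟨⟨a1, a2⟩, a3⟩ := hcon
  refine hv ⟨a1, ?_, fun b hbB hb => a3 ⟨b, hbB, hb⟩⟩
  intro i j hij
  by_contra hne
  exact a2 ⟨(i, j), hne⟩ hij

end fac

end Pool.Agent.Q45.HI
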