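import Pool.Agent.Q45.HI.Irr

/-!
# Irreducibility of `b(-G)` for almost all integral points of a family of polynomials `G`
-/

set_option autoImplicit false
set_option linter.all false

open Polynomial
open scoped Classical

namespace Pool.Agent.Q45.HI

open Pool.Agent.W275.UB

section shear

variable {k : Type} [Field k] {J : Type}

/-- The substitution `X_q ↦ X_q + h`. -/
noncomputable def shear (q : J) (h : (MvPolynomial J k)[X]) :
    (MvPolynomial J k)[X] →+* (MvPolynomial J k)[X] :=
  eval₂RingHom (MvPolynomial.eval₂Hom (C.comp MvPolynomial.C)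
    (fun s => if s = q then C (MvPolynomial.X q) + h else C (MvPolynomial.X s))) X

variable {q : J} {h : (MvPolynomial J k)[X]}

theorem shear_X : shear q h X = X := by
  rw [shear, coe_eval₂RingHom, eval₂_X]

theorem shear_cst (a : k) : shear q h (C (MvPolynomial.C a)) = C (MvPolynomial.C a) := by
  rw [shear, coe_eval₂RingHom, eval₂_C, MvPolynomial.coe_eval₂Hom, MvPolynomial.eval₂_C]
  rfl

theorem shear_q : shear q h (C (MvPolynomial.X q)) = C (MvPolynomial.X q) + h := by
  rw [shear, coe_eval₂RingHom, eval₂_C, MvPolynomial.coe_eval₂Hom, MvPolynomial.eval₂_X, if_pos rfl]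

theorem shear_s {s : J} (hs : s ≠ q) : shear q h (C (MvPolynomial.X s)) = C (MvPolynomial.X s) := by
  rw [shear, coe_eval₂RingHom, eval₂_C, MvPolynomial.coe_eval₂Hom, MvPolynomial.eval₂_X, if_neg hs]

theorem hom_ext' {B : Type} [CommRing B] {f g : (MvPolynomial J k)[X] →+* B}
    (h1 : ∀ a, f (C (MvPolynomial.C a)) = g (C (MvPolynomial.C a)))
    (h2 : ∀ s, f (C (MvPolynomial.X s)) = g (C (MvPolynomial.X s))) (h3 : f X = g X) : f = g :=
  Polynomial.ringHom_ext' (MvPolynomial.ringHom_ext h1 h2) h3

/-- The polynomial does not contain `X_q`. -/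
def Free (q : J) (p : (MvPolynomial J k)[X]) : Prop := ∀ h, shear q h p = p

theorem free_X : Free q (X : (MvPolynomial J k)[X]) := fun h => shear_X

theorem free_s {s : J} (hs : s ≠ q) : Free q (C (MvPolynomial.X s) : (MvPolynomial J k)[X]) :=
  fun h => shear_s hs

theorem Free.add {p p' : (MvPolynomial J k)[X]} (hp : Free q p) (hp' : Free q p') :
    Free q (p + p') := fun h => by rw [map_add, hp h, hp' h]

theorem Free.mul {p p' : (MvPolynomial J k)[X]} (hp : Free q p) (hp' : Free q p') :
    Free q (p * p') := fun h => by rw [map_mul, hp h, hp' h]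

theorem Free.pow {p : (MvPolynomial J k)[X]} (hp : Free q p) (n : ℕ) : Free q (p ^ n) :=
  fun h => by rw [map_pow, hp h]

theorem Free.neg {p : (MvPolynomial J k)[X]} (hp : Free q p) : Free q (-p) :=
  fun h => by rw [map_neg, hp h]

theorem Free.sum {τ : Type} {s : Finset τ} {f : τ → (MvPolynomial J k)[X]}
    (hf : ∀ t ∈ s, Free q (f t)) : Free q (∑ t ∈ s, f t) := fun h => by
  rw [map_sum]
  exact Finset.sum_congr rfl fun t ht => hf t ht h

theorem Free.prod {τ : Type} {s : Finset τ} {f : τ → (MvPolynomial J k)[X]}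
    (hf : ∀ t ∈ s, Free q (f t)) : Free q (∏ t ∈ s, f t) := fun h => by
  rw [map_prod]
  exact Finset.prod_congr rfl fun t ht => hf t ht h

theorem shear_comp (hh : Free q h) : (shear q h).comp (shear q (-h)) = RingHom.id _ := by
  refine hom_ext' (fun a => ?_) (fun s => ?_) ?_
  · rw [RingHom.comp_apply, shear_cst, shear_cst, RingHom.id_apply]
  · by_cases hs : s = q
    · subst hs
      rw [RingHom.comp_apply, shear_q, map_add, shear_q, map_neg, hh h, RingHom.id_apply]
      ring
    · rw [RingHom.comp_apply, shear_s hs, shear_s hs, RingHom.id_apply]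
  · rw [RingHom.comp_apply, shear_X, shear_X, RingHom.id_apply]

theorem prime_shear (hh : Free q h) {p : (MvPolynomial J k)[X]} (hp : Prime p) :
    Prime (shear q h p) := by
  have h1 := shear_comp hh
  have h2 := shear_comp hh.neg
  rw [neg_neg] at h2
  let e : (MvPolynomial J k)[X] ≃+* (MvPolynomial J k)[X] :=
    RingEquiv.ofRingHom (shear q h) (shear q (-h)) h1 h2
  exact (MulEquiv.prime_iff e).2 hp

/-- one variable -/
theorem prime_one {b : k[X]} (hb : Irreducible b) (q : J) :
    Prime (eval₂ MvPolynomial.C (-MvPolynomial.X q : MvPolynomial J k) b) := by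
  let ν : k[X] →+* k[X] := compRingHom (-X)
  have hν : ν.comp ν = RingHom.id _ := by
    refine Polynomial.ringHom_ext (fun a => ?_) ?_
    · simp [ν]
    · simp [ν]
  let e : k[X] ≃+* k[X] := RingEquiv.ofRingHom ν ν hν hν
  have h1 : Prime (b.comp (-X)) := (MulEquiv.prime_iff e).2 hb.prime
  let S : Set J := {q}
  haveI : Unique S := Set.uniqueSingleton q
  have h2 : Prime ((MvPolynomial.uniqueAlgEquiv k S).symm (b.comp (-X))) :=
    (MulEquiv.prime_iff (MvPolynomial.uniqueAlgEquiv k S).symm).2 h1
  have h3 := (MvPolynomial.prime_rename_iff S).2 h2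
  have h4 : MvPolynomial.rename ((↑) : S → J) ((MvPolynomial.uniqueAlgEquiv k S).symm (b.comp (-X))) =
      eval₂ MvPolynomial.C (-MvPolynomial.X q : MvPolynomial J k) b := by
    have h5 : (((MvPolynomial.rename ((↑) : S → J) : MvPolynomial S k →ₐ[k] MvPolynomial J k) :
        MvPolynomial S k →+* MvPolynomial J k).comp
        (((MvPolynomial.uniqueAlgEquiv k S).symm : k[X] ≃+* MvPolynomial S k) :
          k[X] →+* MvPolynomial S k)).comp ν =
        eval₂RingHom MvPolynomial.C (-MvPolynomial.X q : MvPolynomial J k) := by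
      refine Polynomial.ringHom_ext (fun a => ?_) ?_
      · simp [ν]
      · simp [ν]
        exact (default : S).2
    exact congrArg (fun f => f b) h5
  rw [h4] at h3
  exact h3

theorem prime_gen (hh : Free q h) {b : k[X]} (hb : Irreducible b) :
    Prime (eval₂ (C.comp MvPolynomial.C) (-(C (MvPolynomial.X q) + h) : (MvPolynomial J k)[X]) b) := by
  have h1 : Prime (C (eval₂ MvPolynomial.C (-MvPolynomial.X q : MvPolynomial J k) b)) :=
    Polynomial.prime_C_iff.2 (prime_one hb q)
  have h2 := prime_shear hh h1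
  have h3 : shear q h (C (eval₂ MvPolynomial.C (-MvPolynomial.X q : MvPolynomial J k) b)) =
      eval₂ (C.comp MvPolynomial.C) (-(C (MvPolynomial.X q) + h) : (MvPolynomial J k)[X]) b := by
    have h4 : ((shear q h).comp C).comp
        (eval₂RingHom MvPolynomial.C (-MvPolynomial.X q : MvPolynomial J k)) =
        eval₂RingHom (C.comp MvPolynomial.C) (-(C (MvPolynomial.X q) + h) :
          (MvPolynomial J k)[X]) := by
      refine Polynomial.ringHom_ext (fun a => ?_) ?_
      · simp only [RingHom.comp_apply, coe_eval₂RingHom, eval₂_C]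
        exact shear_cst a
      · simp only [RingHom.comp_apply, coe_eval₂RingHom, eval₂_X]
        rw [map_neg, map_neg, shear_q]
    exact congrArg (fun f => f b) h4
  rwa [h3] at h2

end shear

section nf

variable {k : Type} [Field k] [NumberField k] {J : Type} [Fintype J]

/-- **Irreducibility of `b(-G)` for almost all integral points.** -/
theorem ud_comp {q : J} {h : (MvPolynomial J k)[X]} (hh : Free q h) {b : k[X]} (hb : Irreducible b)
    {G : (MvPolynomial J k)[X]} (hG : G = C (MvPolynomial.X q) + h) (hm : G.Monic)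
    (hd : 0 < G.natDegree) {ε : ℝ} (hε : 0 < ε) :
    UD ε {v : J → ℤ | ¬ Irreducible (b.comp (-(G.map (spc k v))))} := by
  -- normalization
  have hl : b.leadingCoeff ≠ 0 := leadingCoeff_ne_zero.2 hb.ne_zero
  set u : k := b.leadingCoeff⁻¹ * (-1) ^ b.natDegree with hu
  have hu0 : u ≠ 0 := mul_ne_zero (inv_ne_zero hl) (pow_ne_zero _ (neg_ne_zero.2 one_ne_zero))
  set F₀ : (MvPolynomial J k)[X] := eval₂ (C.comp MvPolynomial.C) (-G) b with hF₀
  have hF₀e : F₀ = (b.map MvPolynomial.C).comp (-G) := by
    rw [hF₀, comp, eval₂_map]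
  have hp : Prime F₀ := by
    rw [hF₀, hG]
    exact prime_gen hh hb
  set F : (MvPolynomial J k)[X] := C (MvPolynomial.C u) * F₀ with hF
  have hun : IsUnit (C (MvPolynomial.C u) : (MvPolynomial J k)[X]) :=
    ((isUnit_iff_ne_zero.2 hu0).map MvPolynomial.C).map C
  have hirr : Irreducible F := (irreducible_isUnit_mul hun).2 hp.irreducible
  have hmon : F.Monic := by
    have h1 : F₀.leadingCoeff = MvPolynomial.C (b.leadingCoeff * (-1) ^ b.natDegree) := by
      rw [hF₀e, leadingCoeff_comp (by rw [natDegree_neg]; omega), leadingCoeff_neg, hm.leadingCoeff,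
        natDegree_map_eq_of_injective (MvPolynomial.C_injective J k),
        leadingCoeff_map_of_injective (MvPolynomial.C_injective J k), map_mul, map_pow, map_neg,
        map_one]
    rw [Monic, hF, leadingCoeff_mul, leadingCoeff_C, h1, ← map_mul, hu]
    have h3 : b.leadingCoeff⁻¹ * (-1) ^ b.natDegree * (b.leadingCoeff * (-1) ^ b.natDegree) = 1 := by
      have h4 : ((-1 : k) ^ b.natDegree) * (-1) ^ b.natDegree = 1 := by
        rw [← mul_pow]
        norm_num
      calc _ = (b.leadingCoeff⁻¹ * b.leadingCoeff) * (((-1 : k) ^ b.natDegree) *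
            (-1) ^ b.natDegree) := by ring
        _ = 1 := by rw [inv_mul_cancel₀ hl, h4, one_mul]
    rw [h3, map_one]
  have h5 := ud_irr hmon hirr hε
  refine Pool.Agent.Y706.UD_mono ?_ h5
  intro v hv hv2
  apply hv
  have h6 : F.map (spc k v) = C u * b.comp (-(G.map (spc k v))) := by
    rw [hF, Polynomial.map_mul, map_C, hF₀e, map_comp, Polynomial.map_neg, Polynomial.map_map]
    have h7 : (spc k v).comp (MvPolynomial.C : k →+* MvPolynomial J k) = RingHom.id k :=
      RingHom.ext fun a => MvPolynomial.eval_C a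
    rw [h7, Polynomial.map_id]
    congr 2
    exact MvPolynomial.eval_C u
  rw [h6] at hv2
  exact (irreducible_isUnit_mul ((isUnit_iff_ne_zero.2 hu0).map C)).1 hv2

/-- A nonzero polynomial vanishes rarely. -/
theorem ud_zero {c : MvPolynomial J ℤ} (hc : c ≠ 0) {ε : ℝ} (hε : 0 < ε) :
    UD ε {v : J → ℤ | MvPolynomial.eval v c = 0} := by
  obtain ⟨V, hV⟩ := Pool.Agent.W883.UB.Dens.main J c hc 2 Nat.prime_two ε hε
  refine Pool.Agent.Y706.UD_mono ?_ hV
  intro v hv
  have hv' : MvPolynomial.eval v c = 0 := hv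
  show ((2 : ℕ) : ℤ) ^ (V + 1) ∣ MvPolynomial.eval v c
  rw [hv']
  exact dvd_zero _

end nf

end Pool.Agent.Q45.HI
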