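import Pool.Agent.W925.UB.Densp
import Pool.Agent.W439.UB.Rel
import Pool.Agent.W930.UB.Newton
import Pool.Agent.W883.UB.Interp
import Pool.Agent.W883.UB.Dens
import Pool.Agent.W800.UB.Sz
import Pool.Agent.W918.UB.Win
import Pool.Agent.W616.UB.Root
import Pool.Agent.W591.UB.Hit
import Pool.Agent.W410.UB.Urel
import Pool.Agent.W125.UB.Exu
import Pool.Agent.Y706.Rac4

/-!
# Hilbert irreducibility for almost all integral points of a family with several parameters
-/

set_option autoImplicit false
set_option linter.all false

open Filter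

namespace Pool.Agent.Q45.HI

open Pool.Agent.W275.UB Pool.Agent.Y706
open MvPolynomial IntermediateField

theorem hit : S_hit := Pool.Agent.W591.UB.main Pool.Agent.W925.UB.Densp.main
  (Pool.Agent.W439.UB.Rel.main Pool.Agent.W930.UB.main) Pool.Agent.W883.UB.Interp.main
  Pool.Agent.W800.UB.Sz.main Pool.Agent.W918.UB.Win.main Pool.Agent.W616.UB.Root.main

theorem urel : S_urel := Pool.Agent.W410.UB.Urel.main Pool.Agent.W883.UB.Dens.main hit

end Pool.Agent.Q45.HI
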