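import Pool.Agent.Q45.HI.Gen

/-!
# The ring defined by `b(-G)` is a polynomial ring over the field defined by `b`
-/

set_option autoImplicit false
set_option linter.all false

open Polynomial
open scoped Classical

namespace Pool.Agent.Q45.HI

section iso

variable {k : Type} [Field k] {J : Type}

/-- The evaluation of the coefficients and of the variable. -/
noncomputable def evJ {B : Type} [CommRing B] (c : k →+* B) (w : J → B) (t : B) :
    (MvPolynomial J k)[X] →+* B := eval₂RingHom (MvPolynomial.eval₂Hom c w) t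

section ev

variable {B : Type} [CommRing B] (c : k →+* B) (w : J → B) (t : B)

theorem evJ_X : evJ c w t X = t := by
  rw [evJ, coe_eval₂RingHom, eval₂_X]

theorem evJ_cst (a : k) : evJ c w t (C (MvPolynomial.C a)) = c a := by
  rw [evJ, coe_eval₂RingHom, eval₂_C, MvPolynomial.coe_eval₂Hom, MvPolynomial.eval₂_C]

theorem evJ_s (s : J) : evJ c w t (C (MvPolynomial.X s)) = w s := by
  rw [evJ, coe_eval₂RingHom, eval₂_C, MvPolynomial.coe_eval₂Hom, MvPolynomial.eval₂_X]

theorem evJ_comp {B' : Type} [CommRing B'] (f : B →+* B') :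
    f.comp (evJ c w t) = evJ (f.comp c) (fun s => f (w s)) (f t) := by
  refine hom_ext' (fun a => ?_) (fun s => ?_) ?_
  · rw [RingHom.comp_apply, evJ_cst, evJ_cst, RingHom.comp_apply]
  · rw [RingHom.comp_apply, evJ_s, evJ_s]
  · rw [RingHom.comp_apply, evJ_X, evJ_X]

theorem evJ_eq (f : (MvPolynomial J k)[X] →+* B) :
    f = evJ ((f.comp C).comp MvPolynomial.C) (fun s => f (C (MvPolynomial.X s))) (f X) := by
  refine hom_ext' (fun a => ?_) (fun s => ?_) ?_
  · rw [evJ_cst]
    rfl
  · rw [evJ_s]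
  · rw [evJ_X]

theorem free_ev {q : J} {h : (MvPolynomial J k)[X]} (hh : Free q h) {w' : J → B}
    (hw : ∀ s, s ≠ q → w s = w' s) : evJ c w t h = evJ c w' t h := by
  have h1 : (evJ c w t).comp (shear q (-C (MvPolynomial.X q : MvPolynomial J k))) =
      (evJ c w' t).comp (shear q (-C (MvPolynomial.X q : MvPolynomial J k))) := by
    refine hom_ext' (fun a => ?_) (fun s => ?_) ?_
    · rw [RingHom.comp_apply, RingHom.comp_apply, shear_cst, evJ_cst, evJ_cst]
    · by_cases hs : s = q
      · subst hs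
        rw [RingHom.comp_apply, RingHom.comp_apply, shear_q, add_neg_cancel, map_zero, map_zero]
      · rw [RingHom.comp_apply, RingHom.comp_apply, shear_s hs, evJ_s, evJ_s, hw s hs]
    · rw [RingHom.comp_apply, RingHom.comp_apply, shear_X, evJ_X, evJ_X]
  have h3 := congrArg (fun f => f h) h1
  simp only [RingHom.comp_apply] at h3
  rwa [hh] at h3

end ev

variable {q : J} {h : (MvPolynomial J k)[X]} {b : k[X]} {F : (MvPolynomial J k)[X]}

/-- The polynomial `b(-G)`. -/
noncomputable def bG (b : k[X]) (q : J) (h : (MvPolynomial J k)[X]) : (MvPolynomial J k)[X] :=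
  eval₂ (C.comp MvPolynomial.C) (-(C (MvPolynomial.X q) + h)) b

theorem bG_map {B : Type} [CommRing B] (f : (MvPolynomial J k)[X] →+* B) :
    f (bG b q h) = eval₂ ((f.comp C).comp MvPolynomial.C) (-f (C (MvPolynomial.X q) + h)) b := by
  rw [bG, hom_eval₂, map_neg]
  rfl

variable [Fact (Irreducible b)]

/-- The value of `h`. -/
noncomputable def hth (q : J) (h : (MvPolynomial J k)[X]) (b : k[X]) : MvPolynomial J (AdjoinRoot b) :=
  evJ (MvPolynomial.C.comp (AdjoinRoot.of b)) (fun s => if s = q then 0 else MvPolynomial.X s)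
    (MvPolynomial.X q) h

/-- The images of the parameters. -/
noncomputable def wX (q : J) (h : (MvPolynomial J k)[X]) (b : k[X]) (s : J) :
    MvPolynomial J (AdjoinRoot b) :=
  if s = q then -MvPolynomial.C (AdjoinRoot.root b) - hth q h b else MvPolynomial.X s

/-- The map on polynomials. -/
noncomputable def psi0 (q : J) (h : (MvPolynomial J k)[X]) (b : k[X]) :
    (MvPolynomial J k)[X] →+* MvPolynomial J (AdjoinRoot b) :=
  evJ (MvPolynomial.C.comp (AdjoinRoot.of b)) (wX q h b) (MvPolynomial.X q)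

theorem psi0_G (hh : Free q h) : psi0 q h b (C (MvPolynomial.X q) + h) =
    -MvPolynomial.C (AdjoinRoot.root b) := by
  rw [map_add, psi0, evJ_s, wX, if_pos rfl, free_ev _ _ _ hh (w' := fun s => if s = q then 0 else
    MvPolynomial.X s) (fun s hs => by rw [wX, if_neg hs, if_neg hs])]
  rw [← hth]
  ring

theorem psi0_bG (hh : Free q h) : psi0 q h b (bG b q h) = 0 := by
  rw [bG_map, psi0_G hh, neg_neg]
  have h1 : ((psi0 q h b).comp C).comp MvPolynomial.C = MvPolynomial.C.comp (AdjoinRoot.of b) := by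
    ext1 a
    exact evJ_cst _ _ _ a
  rw [h1, ← hom_eval₂, AdjoinRoot.eval₂_root, map_zero]

theorem psi0_F (hh : Free q h) (hF : bG b q h ∣ F) : psi0 q h b F = 0 := by
  obtain ⟨c, rfl⟩ := hF
  rw [map_mul, psi0_bG hh, zero_mul]

/-- The map. -/
noncomputable def psi (hh : Free q h) (hF : bG b q h ∣ F) :
    AdjoinRoot F →+* MvPolynomial J (AdjoinRoot b) :=
  AdjoinRoot.lift (MvPolynomial.eval₂Hom (MvPolynomial.C.comp (AdjoinRoot.of b)) (wX q h b))
    (MvPolynomial.X q) (psi0_F hh hF)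

theorem mk_bG (hF : F ∣ bG b q h) :
    eval₂ ((AdjoinRoot.of F).comp MvPolynomial.C) (-AdjoinRoot.mk F (C (MvPolynomial.X q) + h)) b = 0 := by
  have h1 := bG_map (b := b) (q := q) (h := h) (AdjoinRoot.mk F)
  have h3 : ((AdjoinRoot.mk F).comp C).comp MvPolynomial.C = (AdjoinRoot.of F).comp MvPolynomial.C := by
    ext1 a
    exact AdjoinRoot.mk_C _
  rw [h3, AdjoinRoot.mk_eq_zero.2 hF] at h1
  exact h1.symm

/-- The constants. -/
noncomputable def bkC (q : J) (h : (MvPolynomial J k)[X]) (hF : F ∣ bG b q h) :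
    AdjoinRoot b →+* AdjoinRoot F :=
  AdjoinRoot.lift ((AdjoinRoot.of F).comp MvPolynomial.C)
    (-AdjoinRoot.mk F (C (MvPolynomial.X q) + h)) (mk_bG hF)

/-- The inverse map. -/
noncomputable def bk (q : J) (h : (MvPolynomial J k)[X]) (hF : F ∣ bG b q h) :
    MvPolynomial J (AdjoinRoot b) →+* AdjoinRoot F :=
  MvPolynomial.eval₂Hom (bkC q h hF)
    (fun s => if s = q then AdjoinRoot.root F else AdjoinRoot.of F (MvPolynomial.X s))

theorem bk_C (hF : F ∣ bG b q h) (a : AdjoinRoot b) : bk q h hF (MvPolynomial.C a) = bkC q h hF a := by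
  rw [bk, MvPolynomial.coe_eval₂Hom, MvPolynomial.eval₂_C]

theorem bk_s (hF : F ∣ bG b q h) (s : J) : bk q h hF (MvPolynomial.X s) =
    if s = q then AdjoinRoot.root F else AdjoinRoot.of F (MvPolynomial.X s) := by
  rw [bk, MvPolynomial.coe_eval₂Hom, MvPolynomial.eval₂_X]

theorem bkC_of (hF : F ∣ bG b q h) (a : k) : bkC q h hF (AdjoinRoot.of b a) =
    AdjoinRoot.of F (MvPolynomial.C a) := by
  rw [bkC, AdjoinRoot.lift_of]
  rfl

theorem bk_hth (hh : Free q h) (hF : F ∣ bG b q h) : bk q h hF (hth q h b) = AdjoinRoot.mk F h := by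
  have h1 := evJ_comp (MvPolynomial.C.comp (AdjoinRoot.of b))
    (fun s => if s = q then 0 else MvPolynomial.X s) (MvPolynomial.X q) (bk q h hF)
  have h3 := congrArg (fun f => f h) h1
  simp only [RingHom.comp_apply] at h3
  rw [← hth] at h3
  rw [h3]
  have h4 : AdjoinRoot.mk F h = _ := congrArg (fun f => f h) (evJ_eq (AdjoinRoot.mk F))
  rw [h4]
  have h5 : ((bk q h hF).comp (MvPolynomial.C.comp (AdjoinRoot.of b))) =
      ((AdjoinRoot.mk F).comp C).comp MvPolynomial.C := by
    ext1 a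
    rw [RingHom.comp_apply, RingHom.comp_apply, bk_C, bkC_of, RingHom.comp_apply,
      RingHom.comp_apply, AdjoinRoot.mk_C]
  have h6 : bk q h hF (MvPolynomial.X q) = AdjoinRoot.mk F X := by
    rw [bk_s, if_pos rfl, AdjoinRoot.mk_X]
  rw [h5, h6]
  refine free_ev _ _ _ hh fun s hs => ?_
  rw [if_neg hs, bk_s, if_neg hs, AdjoinRoot.mk_C]

theorem bk_psi (hh : Free q h) (hF : bG b q h ∣ F) (hF' : F ∣ bG b q h) :
    (bk q h hF').comp (psi hh hF) = RingHom.id _ := by
  refine AdjoinRoot.ringHom_ext ?_ ?_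
  · refine MvPolynomial.ringHom_ext (fun a => ?_) fun s => ?_
    · rw [RingHom.comp_apply, RingHom.comp_apply, psi, AdjoinRoot.lift_of,
        MvPolynomial.coe_eval₂Hom, MvPolynomial.eval₂_C, RingHom.comp_apply, bk_C, bkC_of]
      rfl
    · rw [RingHom.comp_apply, RingHom.comp_apply, psi, AdjoinRoot.lift_of,
        MvPolynomial.coe_eval₂Hom, MvPolynomial.eval₂_X]
      by_cases hs : s = q
      · subst hs
        rw [wX, if_pos rfl, map_sub, map_neg, bk_hth hh hF', bk_C, bkC, AdjoinRoot.lift_root,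
          neg_neg, map_add, add_sub_cancel_right, AdjoinRoot.mk_C]
        rfl
      · rw [wX, if_neg hs, bk_s, if_neg hs]
        rfl
  · rw [RingHom.comp_apply, psi, AdjoinRoot.lift_root, bk_s, if_pos rfl]
    rfl

theorem psi_mk (hh : Free q h) (hF : bG b q h ∣ F) (p : (MvPolynomial J k)[X]) :
    psi hh hF (AdjoinRoot.mk F p) = psi0 q h b p := by
  rw [psi, AdjoinRoot.lift_mk]
  rfl

theorem psi_bk (hh : Free q h) (hF : bG b q h ∣ F) (hF' : F ∣ bG b q h) :
    (psi hh hF).comp (bk q h hF') = RingHom.id _ := by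
  refine MvPolynomial.ringHom_ext' ?_ fun s => ?_
  · refine AdjoinRoot.ringHom_ext ?_ ?_
    · ext1 a
      simp only [RingHom.comp_apply]
      rw [bk_C, bkC_of, psi, AdjoinRoot.lift_of, MvPolynomial.coe_eval₂Hom, MvPolynomial.eval₂_C]
      rfl
    · simp only [RingHom.comp_apply]
      rw [bk_C, bkC, AdjoinRoot.lift_root, map_neg, psi_mk, psi0_G hh, neg_neg]
      rfl
  · rw [RingHom.comp_apply, bk_s]
    by_cases hs : s = q
    · rw [if_pos hs, psi, AdjoinRoot.lift_root, hs]
      rfl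
    · rw [if_neg hs, psi, AdjoinRoot.lift_of, MvPolynomial.coe_eval₂Hom, MvPolynomial.eval₂_X, wX,
        if_neg hs]
      rfl

/-- **The isomorphism.** -/
noncomputable def isoJ (hh : Free q h) (hF : bG b q h ∣ F) (hF' : F ∣ bG b q h) :
    AdjoinRoot F ≃+* MvPolynomial J (AdjoinRoot b) :=
  RingEquiv.ofRingHom (psi hh hF) (bk q h hF') (psi_bk hh hF hF') (bk_psi hh hF hF')

theorem dom_F (hh : Free q h) (hF : bG b q h ∣ F) (hF' : F ∣ bG b q h) : IsDomain (AdjoinRoot F) :=
  (isoJ hh hF hF').toMulEquiv.isDomain _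

theorem ufd_F (hh : Free q h) (hF : bG b q h ∣ F) (hF' : F ∣ bG b q h)
    [IsDomain (AdjoinRoot F)] : UniqueFactorizationMonoid (AdjoinRoot F) :=
  (isoJ hh hF hF').symm.toMulEquiv.uniqueFactorizationMonoid inferInstance

end iso

end Pool.Agent.Q45.HI
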