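import Pool.Agent.Q45.HI.Gen

/-!
# Homomorphisms from a finite extension of the ring of parameters, at almost all integral points
-/

set_option autoImplicit false
set_option linter.all false

open Polynomial
open scoped Classical

namespace Pool.Agent.Q45.HI

open Pool.Agent.W275.UB

section noroot

/-- A primitive element in the ring. -/
theorem exists_prim (k : Type) [Field k] [NumberField k] (ι : Type) [Fintype ι] {A : Type}
    [CommRing A] [IsDomain A] [Algebra (MvPolynomial ι k) A] [Algebra.IsIntegral (MvPolynomial ι k) A]
    (K E : Type) [Field K] [Algebra (MvPolynomial ι k) K] [IsFractionRing (MvPolynomial ι k) K]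
    [Field E] [Algebra A E] [IsFractionRing A E] [Algebra K E] [Algebra (MvPolynomial ι k) E]
    [IsScalarTower (MvPolynomial ι k) K E] [IsScalarTower (MvPolynomial ι k) A E]
    [FiniteDimensional K E] : ∃ a : A, IntermediateField.adjoin K {algebraMap A E a} = ⊤ := by
  haveI : CharZero K := by
    have h1 : Function.Injective ((algebraMap (MvPolynomial ι k) K).comp MvPolynomial.C) :=
      (IsFractionRing.injective _ K).comp (MvPolynomial.C_injective ι k)
    exact charZero_of_injective_ringHom h1
  obtain ⟨α, hα⟩ := Field.exists_primitive_element K E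
  obtain ⟨a, b, hb, rfl⟩ := IsFractionRing.div_surjective (A := A) α
  have hb0 : b ≠ 0 := nonZeroDivisors.ne_zero hb
  have halg : IsAlgebraic (MvPolynomial ι k) b :=
    (Algebra.IsIntegral.isIntegral (R := MvPolynomial ι k) b).isAlgebraic
  obtain ⟨p, hp, c, hc⟩ := halg.exists_nonzero_dvd hb
  refine ⟨a * c, ?_⟩
  rw [eq_top_iff, ← hα, IntermediateField.adjoin_simple_le_iff]
  have hbE : algebraMap A E b ≠ 0 := fun h => hb0 (IsFractionRing.injective A E (by rw [h, map_zero]))
  have hpK : algebraMap (MvPolynomial ι k) K p ≠ 0 := fun h =>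
    hp (IsFractionRing.injective (MvPolynomial ι k) K (by rw [h, map_zero]))
  have hpE : algebraMap K E (algebraMap (MvPolynomial ι k) K p) ≠ 0 := (_root_.map_ne_zero _).2 hpK
  have h1 : algebraMap A E b * algebraMap A E c = algebraMap K E (algebraMap _ K p) := by
    rw [← map_mul, ← hc, ← IsScalarTower.algebraMap_apply, ← IsScalarTower.algebraMap_apply]
  have h3 : algebraMap A E a / algebraMap A E b =
      algebraMap K E (algebraMap _ K p)⁻¹ * algebraMap A E (a * c) := by
    rw [map_mul, map_inv₀, div_eq_iff hbE]
    field_simp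
    rw [← h1]
    ring
  rw [h3]
  exact mul_mem (IntermediateField.algebraMap_mem _ _) (IntermediateField.mem_adjoin_simple_self K _)

variable {k : Type} [Field k] [NumberField k] {ι : Type} [Fintype ι] {A : Type} [CommRing A]
  [IsDomain A] [Algebra (MvPolynomial ι k) A] [Algebra.IsIntegral (MvPolynomial ι k) A]
  {K E : Type} [Field K] [Algebra (MvPolynomial ι k) K] [IsFractionRing (MvPolynomial ι k) K]
  [Field E] [Algebra A E] [IsFractionRing A E] [Algebra K E] [Algebra (MvPolynomial ι k) E]
  [IsScalarTower (MvPolynomial ι k) K E] [IsScalarTower (MvPolynomial ι k) A E]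
  [FiniteDimensional K E]

/-- **The specializations of a finite extension have large degree.** -/
theorem ud_noroot {d : ℕ} (hd : d < Module.finrank K E) {ε : ℝ} (hε : 0 < ε) :
    UD ε {v : ι → ℤ | ∃ (F : Type) (_ : Field F) (_ : Algebra k F) (φ : A →+* F),
      FiniteDimensional k F ∧ Module.finrank k F ≤ d ∧
      ∀ p, φ (algebraMap (MvPolynomial ι k) A p) = algebraMap k F (spc k v p)} := by
  obtain ⟨a, ha⟩ := exists_prim k ι (A := A) K E
  have hint : IsIntegral (MvPolynomial ι k) a := Algebra.IsIntegral.isIntegral a
  have hm := minpoly.monic hint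
  haveI : IsDomain (MvPolynomial ι k) := inferInstance
  have hirr := minpoly.irreducible hint
  have hdeg : (minpoly (MvPolynomial ι k) a).natDegree = Module.finrank K E := by
    have h1 := minpoly.isIntegrallyClosed_eq_field_fractions K E hint
    have h3 : (minpoly K (algebraMap A E a)).natDegree = Module.finrank K E := by
      have h4 := IntermediateField.adjoin.finrank (IsIntegral.of_finite K (algebraMap A E a))
      rw [ha, IntermediateField.finrank_top'] at h4
      exact h4.symm
    rw [h1, hm.natDegree_map] at h3
    exact h3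
  refine Pool.Agent.Y706.UD_mono ?_ (ud_irr hm hirr hε)
  rintro v ⟨F, iF, aF, φ, hfin, hle, hφ⟩ hcon
  set f := (minpoly (MvPolynomial ι k) a).map (spc k v) with hf
  have hroot : aeval (φ a) f = 0 := by
    rw [hf, aeval_def, eval₂_map]
    have h1 : (algebraMap k F).comp (spc k v) = φ.comp (algebraMap (MvPolynomial ι k) A) :=
      RingHom.ext fun p => (hφ p).symm
    rw [h1, ← hom_eval₂]
    have h3 := minpoly.aeval (MvPolynomial ι k) a
    rw [aeval_def] at h3
    rw [h3, map_zero]
  have hmin : minpoly k (φ a) = f :=
    (minpoly.eq_of_irreducible_of_monic hcon hroot (hm.map _)).symm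
  have h5 := minpoly.natDegree_le (A := k) (φ a)
  rw [hmin, hf, hm.natDegree_map, hdeg] at h5
  omega

end noroot

end Pool.Agent.Q45.HI
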