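import Pool.Agent.Q45.HI.Nrt

/-!
# Elements which are almost never squares at the specializations
-/

set_option autoImplicit false
set_option linter.all false

open Polynomial
open scoped Classical

namespace Pool.Agent.Q45.HI

open Pool.Agent.W275.UB

section fin

variable {k : Type} [Field k] [NumberField k] {ι : Type} [Fintype ι]

/-- **The specializations of a finite extension have large degree.** -/
theorem ud_fin {A : Type} [CommRing A] [IsDomain A] [Algebra (MvPolynomial ι k) A]
    [FaithfulSMul (MvPolynomial ι k) A] [Module.Finite (MvPolynomial ι k) A] {d : ℕ}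
    (hd : d < Module.finrank (MvPolynomial ι k) A) {ε : ℝ} (hε : 0 < ε) :
    UD ε {v : ι → ℤ | ∃ (F : Type) (_ : Field F) (_ : Algebra k F) (φ : A →+* F),
      FiniteDimensional k F ∧ Module.finrank k F ≤ d ∧
      ∀ p, φ (algebraMap (MvPolynomial ι k) A p) = algebraMap k F (spc k v p)} := by
  letI : Algebra (FractionRing (MvPolynomial ι k)) (FractionRing A) :=
    FractionRing.liftAlgebra (MvPolynomial ι k) (FractionRing A)
  have h1 : Module.finrank (FractionRing (MvPolynomial ι k)) (FractionRing A) =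
      Module.finrank (MvPolynomial ι k) A :=
    IsFractionRing.finrank_eq (MvPolynomial ι k) (FractionRing (MvPolynomial ι k)) A (FractionRing A)
  haveI : FiniteDimensional (FractionRing (MvPolynomial ι k)) (FractionRing A) :=
    Module.finite_of_finrank_pos (by rw [h1]; omega)
  exact ud_noroot (K := FractionRing (MvPolynomial ι k)) (E := FractionRing A) (by rw [h1]; exact hd) hε

/-- The polynomial `X ^ 2 - Q` is prime. -/
theorem prime_sq {A : Type} [CommRing A] [IsDomain A] [UniqueFactorizationMonoid A] {Q : A}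
    (hQ : ¬ IsSquare Q) : Prime (X ^ 2 - C Q : A[X]) := by
  have hm : (X ^ 2 - C Q : A[X]).Monic := monic_X_pow_sub_C Q two_ne_zero
  have hd : (X ^ 2 - C Q : A[X]).natDegree = 2 := natDegree_X_pow_sub_C
  have h1 : Irreducible (X ^ 2 - C Q : A[X]) := by
    rw [hm.irreducible_iff_roots_eq_zero_of_degree_le_three (by rw [hd]) (by rw [hd]; norm_num)]
    refine Multiset.eq_zero_of_forall_notMem fun r hr => hQ ⟨r, ?_⟩
    have h3 := (mem_roots'.1 hr).2
    rw [IsRoot.def, eval_sub, eval_pow, eval_X, eval_C, sub_eq_zero] at h3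
    rw [← h3, sq]
  exact h1.prime

/-- **An element which is not a square is rarely a square at the specializations.** -/
theorem ud_nosq {A : Type} [CommRing A] [IsDomain A] [UniqueFactorizationMonoid A]
    [Algebra (MvPolynomial ι k) A] [FaithfulSMul (MvPolynomial ι k) A]
    [Module.Finite (MvPolynomial ι k) A] {Q : A} (hQ : ¬ IsSquare Q) {d : ℕ}
    (hd : d < Module.finrank (MvPolynomial ι k) A * 2) {ε : ℝ} (hε : 0 < ε) :
    UD ε {v : ι → ℤ | ∃ (F : Type) (_ : Field F) (_ : Algebra k F) (φ : A →+* F),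
      FiniteDimensional k F ∧ Module.finrank k F ≤ d ∧
      (∀ p, φ (algebraMap (MvPolynomial ι k) A p) = algebraMap k F (spc k v p)) ∧
      IsSquare (φ Q)} := by
  have hm : (X ^ 2 - C Q : A[X]).Monic := monic_X_pow_sub_C Q two_ne_zero
  have hdeg : (X ^ 2 - C Q : A[X]).natDegree = 2 := natDegree_X_pow_sub_C
  haveI : IsDomain (AdjoinRoot (X ^ 2 - C Q : A[X])) := AdjoinRoot.isDomain_of_prime (prime_sq hQ)
  haveI : Module.Finite A (AdjoinRoot (X ^ 2 - C Q : A[X])) := hm.finite_adjoinRoot
  haveI : Module.Free A (AdjoinRoot (X ^ 2 - C Q : A[X])) := hm.free_adjoinRoot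
  haveI : Module.Finite (MvPolynomial ι k) (AdjoinRoot (X ^ 2 - C Q : A[X])) :=
    Module.Finite.trans A _
  have hinj : Function.Injective (algebraMap A (AdjoinRoot (X ^ 2 - C Q : A[X]))) :=
    AdjoinRoot.of.injective_of_degree_ne_zero (by
      rw [degree_eq_natDegree hm.ne_zero, hdeg]
      norm_num)
  haveI : FaithfulSMul A (AdjoinRoot (X ^ 2 - C Q : A[X])) :=
    (faithfulSMul_iff_algebraMap_injective _ _).2 hinj
  haveI : FaithfulSMul (MvPolynomial ι k) (AdjoinRoot (X ^ 2 - C Q : A[X])) :=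
    FaithfulSMul.trans _ A _
  have h2 : Module.finrank A (AdjoinRoot (X ^ 2 - C Q : A[X])) = 2 := by
    rw [(AdjoinRoot.powerBasis' hm).finrank, AdjoinRoot.powerBasis'_dim, hdeg]
  have h3 := Module.finrank_mul_finrank' (R := MvPolynomial ι k) (S := A)
    (AdjoinRoot (X ^ 2 - C Q : A[X]))
  rw [h2] at h3
  refine Pool.Agent.Y706.UD_mono ?_ (ud_fin (A := AdjoinRoot (X ^ 2 - C Q : A[X])) (d := d)
    (by rw [← h3]; exact hd) hε)
  rintro v ⟨F, iF, aF, φ, hfin, hle, hφ, e, he⟩
  have h0 : eval₂ φ e (X ^ 2 - C Q : A[X]) = 0 := by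
    rw [eval₂_sub, eval₂_pow, eval₂_X, eval₂_C, he, sq, sub_self]
  refine ⟨F, iF, aF, AdjoinRoot.lift φ e h0, hfin, hle, fun p => ?_⟩
  rw [IsScalarTower.algebraMap_apply (MvPolynomial ι k) A, AdjoinRoot.algebraMap_eq,
    AdjoinRoot.lift_of]
  exact hφ p

end fin

end Pool.Agent.Q45.HI
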