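import Pool.Agent.Q45.HI.Iso
import Pool.Agent.Q45.HI.Sqr

/-!
# Elements of the fields defined by `b(-G)` which are almost never squares
-/

set_option autoImplicit false
set_option linter.all false

open Polynomial
open scoped Classical

namespace Pool.Agent.Q45.HI

open Pool.Agent.W275.UB

section nf

variable {k : Type} [Field k] [NumberField k] {J : Type} [Fintype J]

theorem spc_C (v : J → ℤ) : (spc k v).comp (MvPolynomial.C : k →+* MvPolynomial J k) = RingHom.id k :=
  RingHom.ext fun a => MvPolynomial.eval_C a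

/-- The specialization of `b(-G)`. -/
theorem bG_spc {q : J} {h G : (MvPolynomial J k)[X]} (hG : G = C (MvPolynomial.X q) + h) (b : k[X])
    (v : J → ℤ) : (bG b q h).map (spc k v) = b.comp (-(G.map (spc k v))) := by
  have h1 := bG_map (b := b) (q := q) (h := h) (mapRingHom (spc k v))
  rw [← hG] at h1
  have h3 : ((mapRingHom (spc k v)).comp C).comp MvPolynomial.C = (C : k →+* k[X]) := by
    ext1 a
    rw [RingHom.comp_apply, RingHom.comp_apply, coe_mapRingHom, map_C]
    congr 1
    exact MvPolynomial.eval_C a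
  rw [h3] at h1
  exact h1

/-- **The image of a polynomial is rarely a square.** -/
theorem ud_ns {q : J} {h : (MvPolynomial J k)[X]} (hh : Free q h) {b : k[X]} (hb : Irreducible b)
    {G : (MvPolynomial J k)[X]} (hG : G = C (MvPolynomial.X q) + h) (hm : G.Monic)
    (hd : 0 < G.natDegree) {Q : (MvPolynomial J k)[X]} {B : Type} [CommRing B]
    (f : (MvPolynomial J k)[X] →+* B) (hf : f (bG b q h) = 0) (hQ : ¬ IsSquare (f Q))
    {ε : ℝ} (hε : 0 < ε) :
    UD ε {v : J → ℤ | Irreducible (b.comp (-(G.map (spc k v)))) ∧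
      IsSquare (AdjoinRoot.mk (b.comp (-(G.map (spc k v)))) (Q.map (spc k v)))} := by
  have hl : b.leadingCoeff ≠ 0 := leadingCoeff_ne_zero.2 hb.ne_zero
  set u : k := b.leadingCoeff⁻¹ * (-1) ^ b.natDegree with hu
  have hu0 : u ≠ 0 := mul_ne_zero (inv_ne_zero hl) (pow_ne_zero _ (neg_ne_zero.2 one_ne_zero))
  have hF₀e : bG b q h = (b.map MvPolynomial.C).comp (-G) := by
    rw [bG, ← hG, comp, eval₂_map]
  set F : (MvPolynomial J k)[X] := C (MvPolynomial.C u) * bG b q h with hF
  have hun : IsUnit (C (MvPolynomial.C u) : (MvPolynomial J k)[X]) :=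
    ((isUnit_iff_ne_zero.2 hu0).map MvPolynomial.C).map C
  have hd1 : bG b q h ∣ F := dvd_mul_left _ _
  have hd2 : F ∣ bG b q h := (hun.mul_left_dvd).2 dvd_rfl
  have hnd : (bG b q h).natDegree = b.natDegree * G.natDegree := by
    rw [hF₀e, natDegree_comp, natDegree_neg, natDegree_map_eq_of_injective
      (MvPolynomial.C_injective J k)]
  have hFd : F.natDegree = b.natDegree * G.natDegree := by
    rw [hF, natDegree_C_mul (by rw [Ne, MvPolynomial.C_eq_zero]; exact hu0), hnd]
  have hmon : F.Monic := by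
    have h1 : (bG b q h).leadingCoeff = MvPolynomial.C (b.leadingCoeff * (-1) ^ b.natDegree) := by
      rw [hF₀e, leadingCoeff_comp (by rw [natDegree_neg]; omega), leadingCoeff_neg, hm.leadingCoeff,
        natDegree_map_eq_of_injective (MvPolynomial.C_injective J k),
        leadingCoeff_map_of_injective (MvPolynomial.C_injective J k), map_mul, map_pow, map_neg,
        map_one]
    rw [Monic, hF, leadingCoeff_mul, leadingCoeff_C, h1, ← map_mul, hu]
    have h3 : b.leadingCoeff⁻¹ * (-1) ^ b.natDegree * (b.leadingCoeff * (-1) ^ b.natDegree) = 1 := by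
      have h4 : ((-1 : k) ^ b.natDegree) * (-1) ^ b.natDegree = 1 := by
        rw [← mul_pow]
        norm_num
      calc _ = (b.leadingCoeff⁻¹ * b.leadingCoeff) * (((-1 : k) ^ b.natDegree) *
            (-1) ^ b.natDegree) := by ring
        _ = 1 := by rw [inv_mul_cancel₀ hl, h4, one_mul]
    rw [h3, map_one]
  have hpos : 0 < F.natDegree := by
    rw [hFd]
    exact Nat.mul_pos hb.natDegree_pos hd
  haveI : Fact (Irreducible b) := ⟨hb⟩
  haveI : IsDomain (AdjoinRoot F) := dom_F hh hd1 hd2
  haveI : UniqueFactorizationMonoid (AdjoinRoot F) := ufd_F hh hd1 hd2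
  haveI : Module.Finite (MvPolynomial J k) (AdjoinRoot F) := hmon.finite_adjoinRoot
  have hinj : Function.Injective (algebraMap (MvPolynomial J k) (AdjoinRoot F)) :=
    AdjoinRoot.of.injective_of_degree_ne_zero (by
      rw [degree_eq_natDegree hmon.ne_zero]
      exact_mod_cast hpos.ne')
  haveI : FaithfulSMul (MvPolynomial J k) (AdjoinRoot F) :=
    (faithfulSMul_iff_algebraMap_injective _ _).2 hinj
  have hfr : Module.finrank (MvPolynomial J k) (AdjoinRoot F) = F.natDegree := by
    rw [(AdjoinRoot.powerBasis' hmon).finrank, AdjoinRoot.powerBasis'_dim]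
  have hfF : eval₂ (f.comp C) (f X) F = 0 := by
    have h1 : eval₂ (f.comp C) (f X) F = f F := by
      rw [← hom_eval₂, eval₂_C_X]
    rw [h1, hF, map_mul, hf, mul_zero]
  have hns : ¬ IsSquare (AdjoinRoot.mk F Q) := by
    intro hs
    apply hQ
    have h1 := hs.map (AdjoinRoot.lift (f.comp C) (f X) hfF)
    rw [AdjoinRoot.lift_mk, ← hom_eval₂, eval₂_C_X] at h1
    exact h1
  refine Pool.Agent.Y706.UD_mono ?_ (ud_nosq hns (d := F.natDegree) (by rw [hfr]; omega) hε)
  rintro v ⟨hv, hsq⟩
  haveI : Fact (Irreducible (b.comp (-(G.map (spc k v))))) := ⟨hv⟩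
  have hE : Module.finrank k (AdjoinRoot (b.comp (-(G.map (spc k v))))) = F.natDegree := by
    rw [(AdjoinRoot.powerBasis hv.ne_zero).finrank, AdjoinRoot.powerBasis_dim, natDegree_comp,
      natDegree_neg, hm.natDegree_map, hFd]
  have hφ0 : eval₂ ((AdjoinRoot.of (b.comp (-(G.map (spc k v))))).comp (spc k v))
      (AdjoinRoot.root (b.comp (-(G.map (spc k v))))) F = 0 := by
    rw [← eval₂_map, hF, Polynomial.map_mul, bG_spc hG, eval₂_mul, AdjoinRoot.eval₂_root, mul_zero]
  refine ⟨AdjoinRoot (b.comp (-(G.map (spc k v)))), inferInstance, inferInstance,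
    AdjoinRoot.lift _ _ hφ0, Module.finite_of_finrank_pos (by rw [hE]; exact hpos), hE.le, fun p => ?_, ?_⟩
  · rw [AdjoinRoot.algebraMap_eq, AdjoinRoot.lift_of]
    rfl
  · have e : eval₂ (AdjoinRoot.of (b.comp (-(G.map (spc k v)))))
        (AdjoinRoot.root (b.comp (-(G.map (spc k v))))) (Q.map (spc k v)) =
        AdjoinRoot.mk (b.comp (-(G.map (spc k v)))) (Q.map (spc k v)) := AdjoinRoot.aeval_eq _
    rw [AdjoinRoot.lift_mk, ← eval₂_map, e]
    exact hsq

end nf

end Pool.Agent.Q45.HI
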