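import Pool.Agent.Q45.HI.Nsv
import Pool.Agent.Q45.HI.Fac
import Pool.Agent.Q45.TD.Def
import Pool.Agent.Q45.TD.Irc

/-!
# The products of the second factors are almost never squares
-/

set_option autoImplicit false
set_option linter.all false

open Polynomial
open scoped Classical

namespace Pool.Agent.Q45.HI

open Pool.Agent.W275.UB
open Pool.Agent.Q45.TD (Ix gK dd dd_spec dd_map dd_of gK_map gK_monic gK_deg)

section nosq

/-- A product which is not a square. -/
theorem not_sq_lin {K : Type} [Field K] (e : ℕ) : ¬ IsSquare ((1 + X) * X ^ e : K[X]) := by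
  rintro ⟨z, hz⟩
  have hp : Prime (X - C (-1) : K[X]) := (irreducible_X_sub_C (-1)).prime
  have e1 : (1 + X : K[X]) = X - C (-1) := by
    rw [map_neg, map_one]
    ring
  have h1 : (X - C (-1) : K[X]) ∣ z := by
    have h3 : (X - C (-1) : K[X]) ∣ z * z := ⟨X ^ e, by rw [← hz, e1]⟩
    rcases hp.dvd_or_dvd h3 with h | h <;> exact h
  obtain ⟨u, rfl⟩ := h1
  rw [e1, mul_mul_mul_comm, mul_assoc] at hz
  have h3 := mul_left_cancel₀ hp.ne_zero hz
  have h5 := congrArg (eval (-1)) h3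
  rw [eval_pow, eval_X, eval_mul, eval_sub, eval_X, eval_C, sub_self, zero_mul] at h5
  exact pow_ne_zero e (neg_ne_zero.2 one_ne_zero) h5

variable {A : Type} [CommRing A] [IsDomain A]

theorem dd_zero {n : ℕ} (hn : 1 < n) (T e : A) :
    eval 0 (dd (X ^ n + C T * X + C e) 0) = T := by
  have h1 : dd (X ^ n + C T * X + C e) 0 = X ^ (n - 1) + C T := by
    refine dd_of (e := e) ?_
    obtain ⟨m, rfl⟩ : ∃ m, n = m + 1 := ⟨n - 1, by omega⟩
    rw [C_0, Nat.add_sub_cancel]
    ring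
  rw [h1, eval_add, eval_pow, eval_X, eval_C, zero_pow (by omega), zero_add]

theorem dd_one {n : ℕ} (hn : 0 < n) (T e : A) :
    eval 0 (dd (X ^ n + C T * X + C e) 1) = 1 + T := by
  have h1 := congrArg (eval 0) (dd_spec (X ^ n + C T * X + C e) 1)
  simp only [eval_sub, eval_add, eval_mul, eval_pow, eval_X, eval_C, one_pow, mul_one, mul_zero,
    zero_pow hn.ne', zero_add] at h1
  linear_combination h1

end nosq

section gen

variable (k : Type) [Field k] (n r m : ℕ)

/-- The general polynomial. -/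
noncomputable def GG : (MvPolynomial (Ix n r m) k)[X] := gK fun i => MvPolynomial.X i

/-- The general polynomial without its constant coefficient. -/
noncomputable def hG (hn : 0 < n) : (MvPolynomial (Ix n r m) k)[X] :=
  X ^ n + ∑ i : Fin n, if i = ⟨0, hn⟩ then 0 else
    C (MvPolynomial.X (Sum.inl i)) * X ^ (i : ℕ)

theorem gK_sum {A : Type} [CommRing A] {n r m : ℕ} (v : Ix n r m → A) :
    gK v = X ^ n + ∑ i : Fin n, C (v (Sum.inl i)) * X ^ (i : ℕ) := by
  unfold gK
  rw [Pool.Agent.Y160.T3.mF_eq]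
  rfl

theorem GG_eq (hn : 0 < n) : GG k n r m = C (MvPolynomial.X (Sum.inl ⟨0, hn⟩)) + hG k n r m hn := by
  have h1 : ∀ i : Fin n, (C (MvPolynomial.X (Sum.inl i)) * X ^ (i : ℕ) :
      (MvPolynomial (Ix n r m) k)[X]) = (if i = ⟨0, hn⟩ then C (MvPolynomial.X (Sum.inl ⟨0, hn⟩))
        else 0) + if i = ⟨0, hn⟩ then 0 else C (MvPolynomial.X (Sum.inl i)) * X ^ (i : ℕ) := by
    intro i
    split_ifs with h
    · rw [h, pow_zero, mul_one, add_zero]
    · rw [zero_add]
  unfold GG hG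
  rw [gK_sum, Finset.sum_congr rfl fun i _ => h1 i, Finset.sum_add_distrib, Finset.sum_ite_eq',
    if_pos (Finset.mem_univ _)]
  ring

theorem hG_free (hn : 0 < n) : Free (Sum.inl ⟨0, hn⟩) (hG k n r m hn) := by
  unfold hG
  refine (free_X.pow n).add (Free.sum fun i _ => ?_)
  split_ifs with h
  · intro h'
    rw [map_zero]
  · exact (free_s (fun h' => h (Sum.inl_injective h'))).mul (free_X.pow _)

theorem GG_map {B : Type} [CommRing B] (φ : MvPolynomial (Ix n r m) k →+* B) :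
    (GG k n r m).map φ = gK fun i => φ (MvPolynomial.X i) := by
  unfold GG
  rw [gK_map]

theorem spc_X {ι : Type} (v : ι → ℤ) (i : ι) : spc k v (MvPolynomial.X i) = ((v i : ℤ) : k) := by
  unfold spc
  simp

end gen

section sp

variable {k : Type} [Field k] {n r m : ℕ} {b : k[X]}

/-- The values. -/
noncomputable def wv (b : k[X]) (s₀ : Fin r) : Ix n r m → (AdjoinRoot b)[X] := fun i =>
  Sum.elim (fun i : Fin n => if (i : ℕ) = 0 then -C (AdjoinRoot.root b) else
    if (i : ℕ) = 1 then X else 0) (Sum.elim (fun s => if s = s₀ then 1 else 0) fun _ => 0) i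

theorem gK_wv (hn : 1 < n) (s₀ : Fin r) : gK (wv (n := n) (m := m) b s₀) =
    X ^ n + C X * X + C (-C (AdjoinRoot.root b)) := by
  rw [gK_sum]
  have h1 : ∀ i : Fin n, (C (wv (m := m) b s₀ (Sum.inl i)) * X ^ (i : ℕ) : (AdjoinRoot b)[X][X]) =
      (if i = (⟨0, by omega⟩ : Fin n) then C (-C (AdjoinRoot.root b)) else 0) +
        if i = (⟨1, hn⟩ : Fin n) then C X * X else 0 := by
    intro i
    unfold wv
    rw [Sum.elim_inl]
    by_cases h0 : (i : ℕ) = 0
    · have h3 : i = (⟨0, by omega⟩ : Fin n) := Fin.ext h0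
      have h4 : i ≠ (⟨1, hn⟩ : Fin n) := by
        intro h
        rw [h] at h0
        exact absurd h0 one_ne_zero
      rw [if_pos h0, if_pos h3, if_neg h4, h0, pow_zero, mul_one, add_zero]
    · have h3 : i ≠ (⟨0, by omega⟩ : Fin n) := fun h => h0 (congrArg Fin.val h)
      by_cases h1 : (i : ℕ) = 1
      · have h4 : i = (⟨1, hn⟩ : Fin n) := Fin.ext h1
        rw [if_neg h0, if_pos h1, if_neg h3, if_pos h4, h1, pow_one, zero_add]
      · have h4 : i ≠ (⟨1, hn⟩ : Fin n) := fun h => h1 (congrArg Fin.val h)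
        rw [if_neg h0, if_neg h1, if_neg h3, if_neg h4, C_0, zero_mul, add_zero]
  rw [Finset.sum_congr rfl fun i _ => h1 i, Finset.sum_add_distrib, Finset.sum_ite_eq',
    if_pos (Finset.mem_univ _), Finset.sum_ite_eq', if_pos (Finset.mem_univ _)]
  ring

/-- The specialization. -/
noncomputable def fv (b : k[X]) (n m : ℕ) (s₀ : Fin r) :
    (MvPolynomial (Ix n r m) k)[X] →+* (AdjoinRoot b)[X] :=
  evJ (C.comp (AdjoinRoot.of b)) (wv b s₀) 0

theorem fv_eq (s₀ : Fin r) (p : (MvPolynomial (Ix n r m) k)[X]) : fv b n m s₀ p =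
    eval 0 (p.map (MvPolynomial.eval₂Hom (C.comp (AdjoinRoot.of b)) (wv b s₀))) := by
  rw [eval_map]
  rfl

theorem fv_G (hn : 1 < n) (s₀ : Fin r) : fv b n m s₀ (GG k n r m) = -C (AdjoinRoot.root b) := by
  rw [fv_eq, GG_map]
  have h1 : (fun i => MvPolynomial.eval₂Hom (C.comp (AdjoinRoot.of b)) (wv (n := n) (m := m) b s₀)
      (MvPolynomial.X i)) = wv b s₀ := by
    funext i
    rw [MvPolynomial.coe_eval₂Hom, MvPolynomial.eval₂_X]
  rw [h1, gK_wv hn, eval_add, eval_add, eval_pow, eval_mul, eval_X, eval_C, zero_pow (by omega),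
    mul_zero, eval_C, add_zero, zero_add]

theorem fv_dd [Fact (Irreducible b)] (hn : 1 < n) (s₀ s : Fin r) :
    fv b n m s₀ (dd (GG k n r m) (MvPolynomial.X (Sum.inr (Sum.inl s)))) =
      if s = s₀ then 1 + X else X := by
  rw [fv_eq, dd_map, GG_map]
  have h1 : (fun i => MvPolynomial.eval₂Hom (C.comp (AdjoinRoot.of b)) (wv (n := n) (m := m) b s₀)
      (MvPolynomial.X i)) = wv b s₀ := by
    funext i
    rw [MvPolynomial.coe_eval₂Hom, MvPolynomial.eval₂_X]
  have h3 : MvPolynomial.eval₂Hom (C.comp (AdjoinRoot.of b)) (wv (n := n) (m := m) b s₀)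
      (MvPolynomial.X (Sum.inr (Sum.inl s))) = if s = s₀ then 1 else 0 := by
    rw [MvPolynomial.coe_eval₂Hom, MvPolynomial.eval₂_X]
    rfl
  rw [h1, h3, gK_wv hn]
  split_ifs
  · exact dd_one (by omega) _ _
  · exact dd_zero hn _ _

/-- The image of the product is not a square. -/
theorem fv_prod [Fact (Irreducible b)] (hn : 1 < n) {W : Finset (Fin r)} {s₀ : Fin r} (hs : s₀ ∈ W) :
    ¬ IsSquare (fv b n m s₀ (∏ s ∈ W, dd (GG k n r m) (MvPolynomial.X (Sum.inr (Sum.inl s))))) := by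
  rw [map_prod, Finset.prod_congr rfl fun s _ => fv_dd hn s₀ s, ← Finset.mul_prod_erase W _ hs,
    if_pos rfl]
  have h1 : ∏ s ∈ W.erase s₀, (if s = s₀ then 1 + X else X : (AdjoinRoot b)[X]) =
      X ^ (W.erase s₀).card := by
    rw [← Finset.prod_const]
    exact Finset.prod_congr rfl fun s hs' => if_neg (Finset.ne_of_mem_erase hs')
  rw [h1]
  exact not_sq_lin _

/-- **The products of the second factors are almost never squares.** -/
theorem ud_pts [NumberField k] (hn : 1 < n) (hb : Irreducible b) {W : Finset (Fin r)}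
    (hW : W.Nonempty) {ε : ℝ} (hε : 0 < ε) :
    UD ε {v : Ix n r m → ℤ | Irreducible (b.comp (-(gK fun i => ((v i : ℤ) : k)))) ∧
      IsSquare (∏ s ∈ W, AdjoinRoot.mk (b.comp (-(gK fun i => ((v i : ℤ) : k))))
        (dd (gK fun i => ((v i : ℤ) : k)) ((v (Sum.inr (Sum.inl s)) : ℤ) : k)))} := by
  obtain ⟨s₀, hs⟩ := hW
  haveI : Fact (Irreducible b) := ⟨hb⟩
  have hn0 : 0 < n := by omega
  have hGe := GG_eq k n r m hn0
  have h0 : fv b n m s₀ (bG b (Sum.inl ⟨0, hn0⟩) (hG k n r m hn0)) = 0 := by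
    rw [bG_map, ← hGe, fv_G hn, neg_neg]
    have h1 : ((fv b n m s₀).comp C).comp MvPolynomial.C = (C : AdjoinRoot b →+* _).comp
        (AdjoinRoot.of b) := by
      ext1 a
      exact evJ_cst _ _ _ a
    rw [h1, ← hom_eval₂, AdjoinRoot.eval₂_root, map_zero]
  have hmap : ∀ v : Ix n r m → ℤ, (GG k n r m).map (spc k v) = gK fun i => ((v i : ℤ) : k) := by
    intro v
    rw [GG_map]
    congr 1
    funext i
    exact spc_X k v i
  refine Pool.Agent.Y706.UD_mono ?_ (ud_ns (hG_free k n r m hn0) hb hGe (gK_monic _)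
    (by
      show 0 < (gK _).natDegree
      rw [gK_deg]
      exact hn0) (fv b n m s₀) h0 (fv_prod hn hs) hε)
  rintro v ⟨h1, h3⟩
  refine ⟨by rw [hmap]; exact h1, ?_⟩
  have h5 : (∏ s ∈ W, dd (GG k n r m) (MvPolynomial.X (Sum.inr (Sum.inl s)))).map (spc k v) =
      ∏ s ∈ W, dd (gK fun i => ((v i : ℤ) : k)) ((v (Sum.inr (Sum.inl s)) : ℤ) : k) := by
    rw [Polynomial.map_prod]
    refine Finset.prod_congr rfl fun s _ => ?_
    rw [dd_map, hmap, spc_X]
  rw [hmap, h5, map_prod]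
  exact h3

end sp

end Pool.Agent.Q45.HI
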