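import Pool.Agent.Q45.TT.MCls

/-!
# Polynomials of odd degree over the residue field of a quadratic tower at an inert place
-/

set_option autoImplicit false
set_option linter.all false

open Polynomial IsDedekindDomain WithZero
open scoped Classical

namespace Pool.Agent.Q45.HI

open Pool.Agent.Q45.TW (cst ff)
open Pool.Agent.Q45.TT

/-- An irreducible polynomial stays irreducible in an extension of degree prime to its degree. -/
theorem irr_coprime {K' K : Type} [Field K'] [Field K] [Algebra K' K] [FiniteDimensional K' K]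
    {f : K'[X]} (hm : f.Monic) (hpos : 0 < f.natDegree)
    (hcop : f.natDegree.Coprime (Module.finrank K' K)) (hirr : Irreducible f) :
    Irreducible (f.map (algebraMap K' K)) := by
  have hne : f.map (algebraMap K' K) ≠ 0 := (hm.map _).ne_zero
  have hnu : ¬ IsUnit (f.map (algebraMap K' K)) := by
    intro h
    have h1 := natDegree_eq_zero_of_isUnit h
    rw [hm.natDegree_map] at h1
    omega
  obtain ⟨q, hq, hqd⟩ := WfDvdMonoid.exists_irreducible_factor hnu hne
  haveI : Fact (Irreducible q) := ⟨hq⟩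
  have hq0 : q ≠ 0 := hq.ne_zero
  haveI : FiniteDimensional K (AdjoinRoot q) := (AdjoinRoot.powerBasis hq0).finite
  haveI : FiniteDimensional K' (AdjoinRoot q) := Module.Finite.trans K (AdjoinRoot q)
  have h1 : Module.finrank K (AdjoinRoot q) = q.natDegree := by
    rw [(AdjoinRoot.powerBasis hq0).finrank, AdjoinRoot.powerBasis_dim]
  have h3 : Module.finrank K' (AdjoinRoot q) = Module.finrank K' K * q.natDegree := by
    rw [← Module.finrank_mul_finrank K' K (AdjoinRoot q), h1]
  set η : AdjoinRoot q := AdjoinRoot.root q with hη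
  have hroot : aeval η f = 0 := by
    obtain ⟨c, hc⟩ := hqd
    have h4 : aeval η (f.map (algebraMap K' K)) = 0 := by
      rw [hc, map_mul, AdjoinRoot.aeval_eq, AdjoinRoot.mk_self, zero_mul]
    rwa [aeval_map_algebraMap] at h4
  have hint : IsIntegral K' η := ⟨f, hm, hroot⟩
  have hmin : minpoly K' η = f := (minpoly.eq_of_irreducible_of_monic hirr hroot hm).symm
  have h4 := IntermediateField.adjoin.finrank hint
  rw [hmin] at h4
  have h5 : f.natDegree ∣ Module.finrank K' K * q.natDegree := by
    rw [← h3, ← h4]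
    exact ⟨_, (Module.finrank_mul_finrank K' (IntermediateField.adjoin K' {η}) (AdjoinRoot q)).symm⟩
  have h6 : f.natDegree ∣ q.natDegree := hcop.dvd_of_dvd_mul_left h5
  have h7 : f.natDegree ≤ q.natDegree := Nat.le_of_dvd hq.natDegree_pos h6
  have h8 : Associated q (f.map (algebraMap K' K)) := by
    refine associated_of_dvd_of_natDegree_le hqd hne ?_
    rw [hm.natDegree_map]
    exact h7
  exact h8.irreducible hq

/-- The field `E` is an extension of degree a power of two of the field of fractions of `k[X]`. -/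
def TwoPow (k : Type) [Field k] (E : Type) [Field E] [Algebra k[X] E] : Prop :=
  ∃ (_ : Algebra (FractionRing k[X]) E), IsScalarTower k[X] (FractionRing k[X]) E ∧
    FiniteDimensional (FractionRing k[X]) E ∧ ∃ j : ℕ, Module.finrank (FractionRing k[X]) E = 2 ^ j

section

variable {k : Type} [Field k]

theorem twoPow_base {K : Type} [Field K] [Algebra k[X] K] (h : IsFractionRing k[X] K) :
    TwoPow k K := by
  let e := FractionRing.algEquiv k[X] K
  letI : Algebra (FractionRing k[X]) K := (e : FractionRing k[X] →+* K).toAlgebra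
  have hb : Function.Bijective (algebraMap (FractionRing k[X]) K) := e.bijective
  let l : FractionRing k[X] ≃ₗ[FractionRing k[X]] K :=
    LinearEquiv.ofBijective (Algebra.linearMap (FractionRing k[X]) K) hb
  refine ⟨inferInstance, IsScalarTower.of_algebraMap_eq fun p => (e.commutes p).symm, ?_, 0, ?_⟩
  · exact Module.Finite.of_surjective (Algebra.linearMap (FractionRing k[X]) K) hb.2
  · rw [← l.finrank_eq, Module.finrank_self, pow_zero]

theorem twoPow_step {K' K : Type} [Field K'] [Field K] [Algebra k[X] K'] [Algebra k[X] K]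
    [Algebra K' K] [IsScalarTower k[X] K' K] (h : TwoPow k K') (hf : FiniteDimensional K' K)
    (h2 : Module.finrank K' K = 2) : TwoPow k K := by
  obtain ⟨i, i1, i2, j, hj⟩ := h
  letI : Algebra (FractionRing k[X]) K := ((algebraMap K' K).comp (algebraMap _ K')).toAlgebra
  haveI : IsScalarTower (FractionRing k[X]) K' K := IsScalarTower.of_algebraMap_eq fun _ => rfl
  refine ⟨inferInstance, IsScalarTower.of_algebraMap_eq fun p => ?_, ?_, j + 1, ?_⟩
  · show algebraMap k[X] K p = algebraMap K' K (algebraMap (FractionRing k[X]) K'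
      (algebraMap k[X] (FractionRing k[X]) p))
    rw [← IsScalarTower.algebraMap_apply k[X] (FractionRing k[X]) K',
      ← IsScalarTower.algebraMap_apply k[X] K' K]
  · exact Module.Finite.trans K' K
  · rw [← Module.finrank_mul_finrank (FractionRing k[X]) K' K, hj, h2, pow_succ]

theorem tower_twoPow (h2 : (2 : k) ≠ 0) {K : Type} [Field K] [Algebra k[X] K] {m : ℕ} {s : ℕ → K}
    (h : IsTower k K m s) : TwoPow k K := by
  refine IsTower.ind h2 (M := fun K _ _ => TwoPow k K) (fun K _ _ hK => twoPow_base hK) ?_ m K s h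
  intro K' K _ _ _ _ _ _ D s hq _ _ ih
  exact twoPow_step ih hq.fin hq.finrank

/-- **The residue field at an inert place.** -/
theorem res_irr (h2 : (2 : k) ≠ 0) {K₀ : Type} [Field K₀] [Algebra k[X] K₀] {m : ℕ} {s : ℕ → K₀}
    (h : IsTower k K₀ m s) (A₀ : Type) [CommRing A₀] [Algebra k[X] A₀] [Algebra A₀ K₀]
    [IsScalarTower k[X] A₀ K₀] [IsIntegralClosure A₀ k[X] K₀] {c : k}
    (hc : Prime (algebraMap k[X] A₀ (X + C c))) {G : k[X]} (hm : G.Monic) (hi : Irreducible G)
    (hodd : Odd G.natDegree) :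
    Irreducible (G.map ((Ideal.Quotient.mk (Ideal.span {algebraMap k[X] A₀ (X + C c)})).comp
      (cst k A₀))) := by
  have hfs := h.fs h2
  obtain ⟨i, i1, i2, j, hj⟩ := tower_twoPow h2 h
  haveI := hfs.finite A₀
  haveI := hfs.frac A₀
  haveI hD := hfs.ded A₀
  set p : Ideal k[X] := Ideal.span {X + C c} with hp
  have hirrc : Irreducible (X + C c : k[X]) := by
    have := irreducible_X_sub_C (-c)
    rwa [C_neg, sub_neg_eq_add] at this
  haveI hpm : p.IsMaximal := PrincipalIdealRing.isMaximal_of_irreducible hirrc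
  set π : A₀ := algebraMap k[X] A₀ (X + C c) with hπ
  have hmap : p.map (algebraMap k[X] A₀) = Ideal.span {π} := by
    rw [hp, Ideal.map_span, Set.image_singleton]
  haveI hPm : (Ideal.span {π}).IsMaximal := by
    have h3 : (Ideal.span {π}).IsPrime := (Ideal.span_singleton_prime hc.ne_zero).2 hc
    refine h3.isMaximal ?_
    rw [Ne, Ideal.span_singleton_eq_bot]
    exact hc.ne_zero
  have hfr := Ideal.finrank_quotient_map (R := k[X]) (S := A₀) (p := p) (FractionRing k[X]) K₀
  rw [hj] at hfr
  letI : Field (A₀ ⧸ Ideal.span {π}) := Ideal.Quotient.field _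
  letI : Algebra k (A₀ ⧸ Ideal.span {π}) :=
    ((Ideal.Quotient.mk (Ideal.span {π})).comp (cst k A₀)).toAlgebra
  -- the residue field of `k[X]`
  let ψ : k →+* k[X] ⧸ p := (Ideal.Quotient.mk p).comp C
  have hψ : Function.Bijective ψ := by
    refine ⟨ψ.injective, fun x => ?_⟩
    obtain ⟨q, rfl⟩ := Ideal.Quotient.mk_surjective x
    refine ⟨q.eval (-c), ?_⟩
    show Ideal.Quotient.mk p (C (q.eval (-c))) = Ideal.Quotient.mk p q
    rw [Ideal.Quotient.mk_eq_mk_iff_sub_mem, hp, Ideal.mem_span_singleton, ← neg_sub, dvd_neg]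
    have h3 : (X + C c : k[X]) = X - C (-c) := by rw [C_neg, sub_neg_eq_add]
    rw [h3, dvd_iff_isRoot, IsRoot, eval_sub, eval_C, sub_self]
  let e : k ≃+* k[X] ⧸ p := RingEquiv.ofBijective ψ hψ
  let e2 : (A₀ ⧸ Ideal.span {π}) ≃+* (A₀ ⧸ p.map (algebraMap k[X] A₀)) :=
    Ideal.quotEquivOfEq hmap.symm
  have hcomp : (algebraMap (k[X] ⧸ p) (A₀ ⧸ p.map (algebraMap k[X] A₀))).comp (e : k →+* k[X] ⧸ p) =
      (e2 : (A₀ ⧸ Ideal.span {π}) →+* _).comp (algebraMap k (A₀ ⧸ Ideal.span {π})) := rfl
  have hfr2 : Module.finrank k (A₀ ⧸ Ideal.span {π}) = 2 ^ j := by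
    rw [← hfr]
    exact Algebra.finrank_eq_of_equiv_equiv e e2 hcomp
  haveI : FiniteDimensional k (A₀ ⧸ Ideal.span {π}) := by
    apply Module.finite_of_finrank_pos
    rw [hfr2]
    positivity
  refine irr_coprime (K := A₀ ⧸ Ideal.span {π}) hm hodd.pos ?_ hi
  rw [hfr2]
  exact Nat.Coprime.pow_right _ (Nat.coprime_two_right.2 hodd)

end

end Pool.Agent.Q45.HI
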